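import Mathlib
import Pool.Graph.R_seed8.Y359.PE.Prod
import Pool.Graph.R_pool_sql_team_seeded_3997aac3.Q137.Shifts.Master
import Pool.Graph.R_pool_sql_team_seeded_3997aac3.Q137.Shifts.Ints

/-!
# Entropies of products of rational numbers
-/

set_option autoImplicit false

namespace Pool.Agent.Helper96.Rat

open Finset Pool.Agent.Y359.PE Q137.Shifts
open scoped Classical

variable {α β γ δ : Type*}

/-- the entropy is large if there are few pairs with the same value -/
lemma h_ge_pairs (S : Finset α) (hS : S.Nonempty) (f : α → β) {E : ℝ} (hE : 0 < E)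
    (h1 : ∑ x ∈ S, (fc S f x : ℝ) ≤ E * S.card) : Real.log S.card - Real.log E ≤ h S f := by
  have hc : (0 : ℝ) < S.card := by exact_mod_cast card_pos.2 hS
  unfold h
  rw [le_div_iff₀ hc]
  have h2 : ∀ x ∈ S, Real.log S.card - Real.log E - ((fc S f x : ℝ) / E - 1) ≤
      Real.log S.card - Real.log (fc S f x) := by
    intro x hx
    have h3 := fc_posR (f := f) hx
    have h4 := Real.log_le_sub_one_of_pos (div_pos h3 hE)
    rw [Real.log_div h3.ne' hE.ne'] at h4
    linarith
  refine le_trans ?_ (sum_le_sum h2)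
  rw [sum_sub_distrib, sum_sub_distrib, sum_sub_distrib, ← sum_div, sum_const, sum_const, sum_const,
    nsmul_eq_mul, nsmul_eq_mul, nsmul_eq_mul, mul_one]
  have h5 : (∑ x ∈ S, (fc S f x : ℝ)) / E ≤ S.card := by
    rw [div_le_iff₀ hE, mul_comm]
    exact h1
  linarith

/-- the sum of the sizes of the classes is the number of pairs with the same value -/
lemma sum_fc (S : Finset α) (f : α → β) (T : Finset (α × α))
    (hT : ∀ s, s ∈ T ↔ (s.1 ∈ S ∧ s.2 ∈ S) ∧ f s.1 = f s.2) : ∑ x ∈ S, fc S f x = T.card := by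
  have h1 : T = (S ×ˢ S).filter fun s => f s.1 = f s.2 := by
    ext s
    rw [hT, mem_filter, mem_product]
  rw [h1, card_filter, sum_product]
  refine sum_congr rfl fun x _ => ?_
  unfold fc cl
  rw [card_filter]
  refine sum_congr rfl fun y _ => ?_
  simp only [eq_comm]

/-- the entropy of a function of the first variable -/
lemma h_fst (A : Finset α) (B : Finset β) (hB : B.Nonempty) (f : α → γ) :
    h (A ×ˢ B) (fun s => f s.1) = h A f := by
  rcases A.eq_empty_or_nonempty with h0 | hA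
  · rw [h0]
    unfold h
    simp
  have hAc : (0 : ℝ) < A.card := by exact_mod_cast card_pos.2 hA
  have hBc : (0 : ℝ) < B.card := by exact_mod_cast card_pos.2 hB
  unfold h
  rw [sum_product, card_product]
  have h1 : ∀ x ∈ A, ∑ y ∈ B, (Real.log ((A.card * B.card : ℕ) : ℝ) -
      Real.log (fc (A ×ˢ B) (fun s => f s.1) (x, y))) =
      B.card * (Real.log A.card - Real.log (fc A f x)) := by
    intro x hx
    have h2 : ∀ y ∈ B, fc (A ×ˢ B) (fun s => f s.1) (x, y) = fc A f x * B.card := by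
      intro y _
      unfold fc
      rw [← card_product]
      congr 1
      ext s
      rw [mem_cl, mem_product, mem_product, mem_cl]
      tauto
    rw [sum_congr rfl fun y hy => by rw [h2 y hy], sum_const, nsmul_eq_mul]
    have h3 := fc_posR (f := f) hx
    push_cast
    rw [Real.log_mul hAc.ne' hBc.ne', Real.log_mul h3.ne' hBc.ne']
    ring
  rw [sum_congr rfl h1, ← mul_sum]
  push_cast
  field_simp

lemma h_snd (A : Finset α) (B : Finset β) (hA : A.Nonempty) (f : β → γ) :
    h (A ×ˢ B) (fun s => f s.2) = h B f := by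
  rw [h_swap' A B]
  exact h_fst B A hA f

/-- subadditivity for independent variables -/
lemma h_two_le (A : Finset α) (B : Finset β) (hA : A.Nonempty) (hB : B.Nonempty) (f : α → γ)
    (g : β → δ) : h (A ×ˢ B) (fun s => (f s.1, g s.2)) ≤ h A f + h B g := by
  have h1 := h_pair_le (A ×ˢ B) (fun s => f s.1) (fun s => g s.2)
  rw [h_fst A B hB f, h_snd A B hA g] at h1
  linarith

/-- a function with nonzero integral values -/
lemma low {Q : ℕ} (hQ : Q ≠ 0) (A : Finset α) (hA : A.Nonempty) (n : α → ℤ) (h0 : ∀ a ∈ A, n a ≠ 0)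
    (J : Finset ℕ) (hJ : ∀ a ∈ A, ∀ p, p ∉ J → fa (n a) p = 0) :
    h A n - Real.log 2 ≤ h A (fun u => (W Q (n u), mk J (fun u => U Q (n u)) u)) := by
  have h1 := h_pair_le A (fun u => (W Q (n u), mk J (fun u => U Q (n u)) u))
    (fun u => decide (0 < n u))
  have h2 : h A (fun u => decide (0 < n u)) ≤ Real.log 2 := by
    have := h_le_card hA (fun u => decide (0 < n u)) ({true, false} : Finset Bool) (by
      intro x _
      rw [mem_insert, mem_singleton]
      cases decide (0 < n x) <;> simp)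
    simpa using this
  have h3 : h A n ≤ h A (fun u => ((W Q (n u), mk J (fun u => U Q (n u)) u),
      decide (0 < n u))) := by
    refine h_mono _ _ _ ?_
    intro x hx y hy hxy
    rw [Prod.mk.injEq, Prod.mk.injEq, mk_eq_iff, decide_eq_decide] at hxy
    have h4 := natAbs_eq hQ J (h0 x hx) (h0 y hy) (hJ x hx) (hJ y hy) hxy.1.1 hxy.1.2
    have h5 := hxy.2
    have h6 := h0 x hx
    have h7 := h0 y hy
    omega
  linarith

/-- **The products of integral functions.** -/
theorem prods {Q : ℕ} (hQ : Q ≠ 0) (A : Finset α) (B : Finset β) (hA : A.Nonempty)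
    (hB : B.Nonempty) (n : α → ℤ) (n' : β → ℤ) (h0 : ∀ a ∈ A, n a ≠ 0) (h0' : ∀ b ∈ B, n' b ≠ 0)
    {τ θ : ℝ} (hτ : 0 ≤ τ) (hθ : 0 < θ) (hθ1 : θ ≤ 1 / 9) (hκ : 4 / Real.log (1 / θ) + τ / θ ≤ 1)
    (hp : ∀ p : ℕ, p.Prime → ((A.filter fun a => Q.factorization p < fa (n a) p).card : ℝ) ≤
      τ * A.card) :
    (1 - 4 / Real.log (1 / θ) - τ / θ) * (h A n + h B n' - 2 * Real.log (2 * Q.divisors.card)) ≤
      h (A ×ˢ B) (fun s => n s.1 * n' s.2) := by
  set J : Finset ℕ := pr (A.image n) ∪ pr (B.image n') with hJd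
  have hJp : ∀ p ∈ J, p.Prime := by
    intro p hp
    rw [hJd, mem_union] at hp
    rcases hp with hp | hp
    · exact prime_of_mem_pr hp
    · exact prime_of_mem_pr hp
  have hAJ : ∀ a ∈ A, ∀ p, p ∉ J → fa (n a) p = 0 := by
    intro a ha p hp
    refine fa_eq_zero (mem_image_of_mem n ha) fun h => hp ?_
    rw [hJd, mem_union]
    exact Or.inl h
  have hBJ : ∀ a ∈ B, ∀ p, p ∉ J → fa (n' a) p = 0 := by
    intro a ha p hp
    refine fa_eq_zero (mem_image_of_mem n' ha) fun h => hp ?_
    rw [hJd, mem_union]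
    exact Or.inr h
  obtain ⟨R, hR0, hR1, hR2⟩ := master (κ := Unit) A hA (fun a => W Q (n a)) (fun a => U Q (n a))
    {()} (fun _ => B) (fun _ _ => hB) (fun _ b => W Q (n' b)) (fun _ b => U Q (n' b))
    hτ hθ hθ1 J (N := 0) (fun p hp' => by
      have h1 : (nz A (fun a => U Q (n a) p) : ℝ) ≤ τ * A.card := by
        refine le_trans (le_of_eq ?_) (hp p (hJp p hp'))
        have := nz_eq A (fun a => U Q (n a) p) (A.filter fun a => Q.factorization p < fa (n a) p)
          fun a => by rw [mem_filter, U_ne_zero]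
        rw [this]
      rw [filter_false_of_mem]
      · simp
      · intro t _ h
        exact h.2 h1)
  have hRz : R () ≤ 0 := by simpa using hR2
  have h1 := hR1 () (mem_singleton_self _)
  have hD : (1 : ℝ) ≤ Q.divisors.card := by
    have : 0 < Q.divisors.card := card_pos.2 ⟨1, Nat.one_mem_divisors.2 hQ⟩
    exact_mod_cast this
  have hlog2D : Real.log (2 * Q.divisors.card) = Real.log 2 + Real.log Q.divisors.card :=
    Real.log_mul (by norm_num) (by linarith)
  have hW : ∀ {σ : Type _} (S : Finset σ) (_ : S.Nonempty) (f : σ → ℤ),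
      h S (fun a => W Q (f a)) ≤ Real.log Q.divisors.card := by
    intro σ S hS f
    refine h_le_card hS _ _ fun a _ => ?_
    rw [Nat.mem_divisors]
    exact ⟨Nat.gcd_dvd_right _ _, hQ⟩
  have h5 := hW A hA n
  have h6 : h B (fun a => W Q (n' a)) ≤ Real.log Q.divisors.card := by
    refine h_le_card hB _ _ fun a _ => ?_
    rw [Nat.mem_divisors]
    exact ⟨Nat.gcd_dvd_right _ _, hQ⟩
  have h3 := low hQ A hA n h0 J hAJ
  have h4 := low hQ B hB n' h0' J hBJ
  have h7 : h (A ×ˢ B) (fun s => ((W Q (n s.1), W Q (n' s.2)),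
      mk J (fun s : α × β => U Q (n s.1) + U Q (n' s.2)) s)) ≤
      h (A ×ˢ B) (fun s => ((W Q (n s.1), W Q (n' s.2)), n s.1 * n' s.2)) := by
    refine h_mono _ _ _ ?_
    intro s hs t ht hst
    rw [Prod.mk.injEq, Prod.mk.injEq] at hst
    rw [Prod.mk.injEq, Prod.mk.injEq, mk_eq_iff]
    refine ⟨hst.1, fun p _ => ?_⟩
    rw [mem_product] at hs ht
    have n1 := h0 _ hs.1
    have n2 := h0' _ hs.2
    have n3 := h0 _ ht.1
    have n4 := h0' _ ht.2
    show U Q (n s.1) p + U Q (n' s.2) p = U Q (n t.1) p + U Q (n' t.2) p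
    unfold U
    rw [← fact_W hQ n1, ← fact_W hQ n2, ← fact_W hQ n3, ← fact_W hQ n4, hst.1.1, hst.1.2]
    have e1 := fa_mul n1 n2 p
    have e2 := fa_mul n3 n4 p
    rw [hst.2, e2] at e1
    have e3 : (fa (n t.1) p : ℤ) + fa (n' t.2) p = fa (n s.1) p + fa (n' s.2) p := by
      exact_mod_cast e1
    linarith
  have h8 := h_pair_le (A ×ˢ B) (fun s => (W Q (n s.1), W Q (n' s.2))) (fun s => n s.1 * n' s.2)
  have h9 : (1 - 4 / Real.log (1 / θ) - τ / θ) *
      (h A n + h B n' - 2 * Real.log (2 * Q.divisors.card)) ≤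
      (1 - 4 / Real.log (1 / θ) - τ / θ) *
      ((h A (fun u => (W Q (n u), mk J (fun u => U Q (n u)) u)) - h A (fun a => W Q (n a))) +
      (h B (fun u => (W Q (n' u), mk J (fun u => U Q (n' u)) u)) - h B (fun a => W Q (n' a)))) := by
    refine mul_le_mul_of_nonneg_left ?_ (by linarith)
    rw [hlog2D]
    linarith
  linarith

/-- **The products of rational functions.** -/
theorem assemble {Q : ℕ} (hQ : Q ≠ 0) (A : Finset α) (B : Finset β) (hA : A.Nonempty)
    (hB : B.Nonempty) (u : α → ℚ) (v : β → ℚ) (h0 : ∀ a ∈ A, u a ≠ 0) (h0' : ∀ b ∈ B, v b ≠ 0)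
    {τ θ : ℝ} (hτ : 0 ≤ τ) (hθ : 0 < θ) (hθ1 : θ ≤ 1 / 9) (hκ : 4 / Real.log (1 / θ) + τ / θ ≤ 1)
    (hp : ∀ p : ℕ, p.Prime → ((A.filter fun a => Q.factorization p < fa (u a).num p).card : ℝ) ≤
      τ * A.card) {E L : ℝ} (hE : 0 < E)
    (hq : ((((A ×ˢ B) ×ˢ (A ×ˢ B)).filter fun s => (u s.1.1).num = (u s.2.1).num ∧
      (v s.1.2).num = (v s.2.2).num ∧
      (u s.1.1).den * (v s.1.2).den = (u s.2.1).den * (v s.2.2).den).card : ℝ) ≤
      E * (A.card * B.card))
    (hL : h (A ×ˢ B) (fun s => (u s.1 * v s.2, (u s.1).den * (v s.2).den)) -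
      h (A ×ˢ B) (fun s => u s.1 * v s.2) ≤ L) :
    (1 - 4 / Real.log (1 / θ) - τ / θ) * (Real.log A.card + Real.log B.card) - Real.log E -
      2 * Real.log (2 * Q.divisors.card) - L ≤
      Real.log ((A ×ˢ B).image fun s => u s.1 * v s.2).card := by
  have hAc : (0 : ℝ) < A.card := by exact_mod_cast card_pos.2 hA
  have hBc : (0 : ℝ) < B.card := by exact_mod_cast card_pos.2 hB
  have hAB := hA.product hB
  set n : α → ℤ := fun a => (u a).num with hn
  set n' : β → ℤ := fun b => (v b).num with hn'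
  set D : α × β → ℕ := fun s => (u s.1).den * (v s.2).den with hD
  have g1 := prods hQ A B hA hB n n' (fun a ha => _root_.Rat.num_ne_zero.2 (h0 a ha))
    (fun a ha => _root_.Rat.num_ne_zero.2 (h0' a ha)) hτ hθ hθ1 hκ hp
  have g2 := h_le_card hAB (fun s => u s.1 * v s.2) ((A ×ˢ B).image fun s => u s.1 * v s.2)
    fun x hx => mem_image_of_mem _ hx
  -- c and D determine the product of the numerators, and conversely
  have g3 : h (A ×ˢ B) (fun s => (u s.1 * v s.2, D s)) =
      h (A ×ˢ B) (fun s => (n s.1 * n' s.2, D s)) := by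
    refine h_congr fun s _ t _ => ?_
    rw [Prod.mk.injEq, Prod.mk.injEq]
    have e : ∀ s : α × β, u s.1 * v s.2 * (D s : ℚ) = ((n s.1 * n' s.2 : ℤ) : ℚ) := by
      intro s
      have k1 := _root_.Rat.mul_den_eq_num (u s.1)
      have k2 := _root_.Rat.mul_den_eq_num (v s.2)
      rw [hD, hn, hn']
      push_cast
      rw [← k1, ← k2]
      ring
    have dp : ∀ s : α × β, (D s : ℚ) ≠ 0 := by
      intro s
      have : 0 < D s := Nat.mul_pos (u s.1).den_pos (v s.2).den_pos
      exact_mod_cast this.ne'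
    constructor
    · rintro ⟨h1, h2⟩
      refine ⟨?_, h2⟩
      have := e s
      rw [h1, h2, e t] at this
      exact_mod_cast this.symm
    · rintro ⟨h1, h2⟩
      refine ⟨?_, h2⟩
      refine mul_right_cancel₀ (dp s) ?_
      rw [e s, h1, ← e t, h2]
  -- submodularity
  have g4 := submod (A ×ˢ B) (fun s => n s.1 * n' s.2) (fun s => (n s.1 * n' s.2, D s))
    (fun s => (n s.1, n' s.2)) (fun s _ t _ hst => (Prod.mk.injEq _ _ _ _ ▸ hst).1)
  have g5 : h (A ×ˢ B) (fun s => (n s.1 * n' s.2, (n s.1, n' s.2))) =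
      h (A ×ˢ B) (fun s => (n s.1, n' s.2)) := by
    refine h_congr fun s _ t _ => ?_
    rw [Prod.mk.injEq, Prod.mk.injEq]
    exact ⟨fun h => h.2, fun h => ⟨by rw [h.1, h.2], h⟩⟩
  have g6 := h_two_le A B hA hB n n'
  have g7 : h (A ×ˢ B) (fun s => ((n s.1, n' s.2), D s)) ≤
      h (A ×ˢ B) (fun s => ((n s.1 * n' s.2, D s), (n s.1, n' s.2))) := by
    refine h_mono _ _ _ ?_
    intro s _ t _ hst
    simp only [Prod.mk.injEq] at hst
    rw [Prod.mk.injEq, Prod.mk.injEq]
    exact ⟨hst.2, hst.1.2⟩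
  have g8 : Real.log (A.card * B.card) - Real.log E ≤
      h (A ×ˢ B) (fun s => ((n s.1, n' s.2), D s)) := by
    have := h_ge_pairs (A ×ˢ B) hAB (fun s => ((n s.1, n' s.2), D s)) hE (by
      rw [← Nat.cast_sum, sum_fc _ _ (((A ×ˢ B) ×ˢ (A ×ˢ B)).filter fun s =>
        (u s.1.1).num = (u s.2.1).num ∧ (v s.1.2).num = (v s.2.2).num ∧
        (u s.1.1).den * (v s.1.2).den = (u s.2.1).den * (v s.2.2).den) ?_, card_product]
      · push_cast
        exact hq
      · intro s
        rw [mem_filter, mem_product, Prod.mk.injEq, Prod.mk.injEq, and_assoc (a := n s.1.1 = _)])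
    rw [card_product] at this
    push_cast at this
    exact this
  have g9 : h A n ≤ Real.log A.card := (h_le_card hA _ (A.image n)
    fun x hx => mem_image_of_mem _ hx).trans
    (Real.log_le_log (by exact_mod_cast card_pos.2 (hA.image _)) (by exact_mod_cast card_image_le))
  have g10 : h B n' ≤ Real.log B.card := (h_le_card hB _ (B.image n')
    fun x hx => mem_image_of_mem _ hx).trans
    (Real.log_le_log (by exact_mod_cast card_pos.2 (hB.image _)) (by exact_mod_cast card_image_le))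
  rw [Real.log_mul hAc.ne' hBc.ne'] at g8
  rw [g3] at hL
  rw [g5] at g4
  set κ := 4 / Real.log (1 / θ) + τ / θ with hκd
  have hκ0 : 0 ≤ κ := by
    have : 0 ≤ Real.log (1 / θ) := Real.log_nonneg (by rw [le_div_iff₀ hθ]; linarith)
    positivity
  have hD1 : (1 : ℝ) ≤ Q.divisors.card := by
    have : 0 < Q.divisors.card := card_pos.2 ⟨1, Nat.one_mem_divisors.2 hQ⟩
    exact_mod_cast this
  have hlogD : 0 ≤ Real.log (2 * Q.divisors.card) := Real.log_nonneg (by linarith)
  have e1 : 1 - 4 / Real.log (1 / θ) - τ / θ = 1 - κ := by rw [hκd]; ring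
  rw [e1] at g1 ⊢
  have e2 : κ * (h A n + h B n') ≤ κ * (Real.log A.card + Real.log B.card) :=
    mul_le_mul_of_nonneg_left (by linarith) hκ0
  have e3 := mul_nonneg hκ0 hlogD
  have e4 : (1 - κ) * (h A n + h B n' - 2 * Real.log (2 * Q.divisors.card)) =
      (h A n + h B n') - κ * (h A n + h B n') - 2 * Real.log (2 * Q.divisors.card) +
      2 * (κ * Real.log (2 * Q.divisors.card)) := by ring
  have e5 : (1 - κ) * (Real.log A.card + Real.log B.card) =
      Real.log A.card + Real.log B.card - κ * (Real.log A.card + Real.log B.card) := by ring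
  rw [e4] at g1
  rw [e5]
  linarith

end Pool.Agent.Helper96.Rat
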