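import Pool.Agent.Helper96.Rat.Quad

/-!
# The denominators of the factors from the product
-/

set_option autoImplicit false

namespace Pool.Agent.Helper96.Rat

open Finset

section val

variable {R : Finset ℕ} {g : ℕ → ℚ} (h2 : ∀ i ∈ R, 2 ≤ i) (hg : ∀ i ∈ R, (g i).den = i)
  (hR : (R : Set ℕ).Pairwise Nat.Coprime)

include h2 hg hR

lemma val_den {w : ℤ × Finset ℕ} (hw : w.2 ⊆ R) {i p : ℕ} (hi : i ∈ R) (hp : p.Prime)
    (hpi : p ∣ i) : padicValNat p (zz g w).den = if i ∈ w.2 then i.factorization p else 0 := by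
  have hnd : ∀ W : Finset ℕ, W ⊆ R → i ∉ W → ¬ p ∣ ∏ j ∈ W, j := by
    intro W hW hiW hd
    rw [Prime.dvd_finsetProd_iff hp.prime] at hd
    obtain ⟨j, hj, hd⟩ := hd
    have hc : Nat.Coprime i j := hR hi (hW hj) fun h => hiW (h ▸ hj)
    have := Nat.dvd_gcd hpi hd
    rw [hc.gcd_eq_one] at this
    exact hp.one_lt.ne' (Nat.dvd_one.1 this)
  rw [zz_den hg hR hw]
  split_ifs with h
  · rw [← mul_prod_erase w.2 (fun j => j) h, ← Nat.factorization_def _ hp]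
    have e1 : ∏ j ∈ w.2.erase i, j ≠ 0 := by
      refine (prod_pos fun j hj => ?_).ne'
      have := h2 j (hw (mem_of_mem_erase hj))
      omega
    have e2 := h2 i hi
    rw [Nat.factorization_mul (by omega) e1, Finsupp.add_apply,
      Nat.factorization_eq_zero_of_not_dvd
        (hnd (w.2.erase i) ((erase_subset _ _).trans hw) (notMem_erase _ _)), add_zero]
  · exact padicValNat.eq_zero_of_not_dvd (hnd w.2 hw h)

lemma val_in {w : ℤ × Finset ℕ} (hw : w.2 ⊆ R) {i p : ℕ} (hi : i ∈ w.2) (hp : p.Prime)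
    (hpi : p ∣ i) : padicValRat p (zz g w) = -(i.factorization p : ℤ) := by
  have h1 := val_den h2 hg hR hw (hw hi) hp hpi
  rw [if_pos hi] at h1
  have h3 : p ∣ (zz g w).den := by
    rw [zz_den hg hR hw]
    exact hpi.trans (dvd_prod_of_mem _ hi)
  have h4 : ¬ p ∣ (zz g w).num.natAbs := by
    intro h
    have := Nat.dvd_gcd h h3
    rw [Nat.Coprime.gcd_eq_one (zz g w).reduced] at this
    exact hp.one_lt.ne' (Nat.dvd_one.1 this)
  unfold padicValRat padicValInt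
  rw [h1, padicValNat.eq_zero_of_not_dvd h4]
  simp

lemma val_out {w : ℤ × Finset ℕ} (hw : w.2 ⊆ R) {i p : ℕ} (hiR : i ∈ R) (hi : i ∉ w.2)
    (hp : p.Prime) (hpi : p ∣ i) :
    padicValRat p (zz g w) = (padicValInt p (zz g w).num : ℤ) := by
  have h1 := val_den h2 hg hR hw hiR hp hpi
  rw [if_neg hi] at h1
  unfold padicValRat
  rw [h1]
  simp

end val

/-- the error of the reading of the digit at `i` -/
noncomputable def err (g : ℕ → ℚ) (P : ℕ → ℕ) (s : (ℤ × Finset ℕ) × (ℤ × Finset ℕ)) (i : ℕ) : ℤ :=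
  if ((i ∈ s.1.2 ∧ i ∉ s.2.2) ∨ (i ∉ s.1.2 ∧ i ∈ s.2.2)) ∧
    0 ≤ padicValRat (P i) (zz g s.1 * zz g s.2) then 1 else 0

/-- the digit at `i` -/
def dig (s : (ℤ × Finset ℕ) × (ℤ × Finset ℕ)) (i : ℕ) : ℕ :=
  (if i ∈ s.1.2 then 1 else 0) + (if i ∈ s.2.2 then 1 else 0)

section dig

variable {R : Finset ℕ} {g : ℕ → ℚ} (h2 : ∀ i ∈ R, 2 ≤ i) (hg : ∀ i ∈ R, (g i).den = i)
  (hR : (R : Set ℕ).Pairwise Nat.Coprime)

include h2 hg hR

omit h2 in
lemma den_eq {s : (ℤ × Finset ℕ) × (ℤ × Finset ℕ)} (h1 : s.1.2 ⊆ R) (h3 : s.2.2 ⊆ R) :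
    (zz g s.1).den * (zz g s.2).den = ∏ i ∈ R, i ^ dig s i := by
  rw [zz_den hg hR h1, zz_den hg hR h3]
  have key : ∀ T ⊆ R, ∏ i ∈ T, i = ∏ i ∈ R, i ^ (if i ∈ T then 1 else 0) := by
    intro T hT
    rw [← prod_subset hT fun i _ hi => by rw [if_neg hi, pow_zero]]
    exact prod_congr rfl fun i hi => by rw [if_pos hi, pow_one]
  rw [key _ h1, key _ h3, ← prod_mul_distrib]
  refine prod_congr rfl fun i _ => ?_
  rw [dig, pow_add]

lemma val_dig {s : (ℤ × Finset ℕ) × (ℤ × Finset ℕ)} (h1 : s.1.2 ⊆ R) (h3 : s.2.2 ⊆ R)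
    (hz1 : zz g s.1 ≠ 0) (hz2 : zz g s.2 ≠ 0) {i p : ℕ} (hi : i ∈ R) (hp : p.Prime)
    (hpi : p ∣ i) :
    (dig s i = 0 → 0 ≤ padicValRat p (zz g s.1 * zz g s.2)) ∧
    (dig s i = 1 → -(i.factorization p : ℤ) ≤ padicValRat p (zz g s.1 * zz g s.2)) ∧
    (dig s i = 2 → padicValRat p (zz g s.1 * zz g s.2) = -2 * (i.factorization p : ℤ)) := by
  have : Fact p.Prime := ⟨hp⟩
  rw [padicValRat.mul hz1 hz2]
  have a1 := fun h => val_in (p := p) h2 hg hR h1 (i := i) h hp hpi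
  have a2 := fun h => val_in (p := p) h2 hg hR h3 (i := i) h hp hpi
  have b1 := fun h => val_out (p := p) h2 hg hR h1 (i := i) hi h hp hpi
  have b2 := fun h => val_out (p := p) h2 hg hR h3 (i := i) hi h hp hpi
  unfold dig
  by_cases c1 : i ∈ s.1.2 <;> by_cases c2 : i ∈ s.2.2
  · rw [a1 c1, a2 c2]
    simp only [c1, c2, if_true]
    refine ⟨by omega, by omega, fun _ => by ring⟩
  · rw [a1 c1, b2 c2]
    simp only [c1, c2, if_true, if_false]
    refine ⟨by omega, fun _ => by omega, by omega⟩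
  · rw [b1 c1, a2 c2]
    simp only [c1, c2, if_true, if_false]
    refine ⟨by omega, fun _ => by omega, by omega⟩
  · rw [b1 c1, b2 c2]
    simp only [c1, c2, if_false]
    refine ⟨fun _ => by omega, by omega, by omega⟩

/-- the product and the errors determine the product of the denominators -/
lemma determined {P : ℕ → ℕ} (hP : ∀ i ∈ R, (P i).Prime ∧ P i ∣ i)
    {s t : (ℤ × Finset ℕ) × (ℤ × Finset ℕ)} (hs1 : s.1.2 ⊆ R) (hs2 : s.2.2 ⊆ R)
    (ht1 : t.1.2 ⊆ R) (ht2 : t.2.2 ⊆ R) (zs1 : zz g s.1 ≠ 0) (zs2 : zz g s.2 ≠ 0)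
    (zt1 : zz g t.1 ≠ 0) (zt2 : zz g t.2 ≠ 0) (hc : zz g s.1 * zz g s.2 = zz g t.1 * zz g t.2)
    (he : ∀ i ∈ R, err g P s i = err g P t i) :
    (zz g s.1).den * (zz g s.2).den = (zz g t.1).den * (zz g t.2).den := by
  rw [den_eq hg hR hs1 hs2, den_eq hg hR ht1 ht2]
  refine prod_congr rfl fun i hi => ?_
  congr 1
  obtain ⟨hp, hpi⟩ := hP i hi
  obtain ⟨a0, a1, a2⟩ := val_dig h2 hg hR hs1 hs2 zs1 zs2 hi hp hpi
  obtain ⟨b0, b1, b2⟩ := val_dig h2 hg hR ht1 ht2 zt1 zt2 hi hp hpi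
  have hi2 := h2 i hi
  have he1 : 1 ≤ i.factorization (P i) :=
    (hp.dvd_iff_one_le_factorization (by omega)).1 hpi
  have hei := he i hi
  rw [← hc] at b0 b1 b2
  unfold err at hei
  rw [← hc] at hei
  have ds : dig s i = 0 ∨ dig s i = 1 ∨ dig s i = 2 := by
    unfold dig
    split_ifs <;> simp
  have dt : dig t i = 0 ∨ dig t i = 1 ∨ dig t i = 2 := by
    unfold dig
    split_ifs <;> simp
  have ks : dig s i = 1 ↔ ((i ∈ s.1.2 ∧ i ∉ s.2.2) ∨ (i ∉ s.1.2 ∧ i ∈ s.2.2)) := by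
    unfold dig
    by_cases c1 : i ∈ s.1.2 <;> by_cases c2 : i ∈ s.2.2 <;> simp [c1, c2]
  have kt : dig t i = 1 ↔ ((i ∈ t.1.2 ∧ i ∉ t.2.2) ∨ (i ∉ t.1.2 ∧ i ∈ t.2.2)) := by
    unfold dig
    by_cases c1 : i ∈ t.1.2 <;> by_cases c2 : i ∈ t.2.2 <;> simp [c1, c2]
  simp only [← ks, ← kt] at hei
  set v := padicValRat (P i) (zz g s.1 * zz g s.2)
  rcases ds with h | h | h <;> rcases dt with h' | h' | h' <;> rw [h, h']
  · exfalso
    have := a0 h
    simp [h, h', this] at hei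
  · exfalso
    have := a0 h
    have := b2 h'
    omega
  · exfalso
    have := b0 h'
    simp [h, h', this] at hei
  · exfalso
    have := a1 h
    have := b2 h'
    omega
  · exfalso
    have := a2 h
    have := b0 h'
    omega
  · exfalso
    have := a2 h
    have := b1 h'
    omega

/-- an error comes from a numerator which is divisible by a large prime power -/
lemma err_dvd {P : ℕ → ℕ} (hP : ∀ i ∈ R, (P i).Prime ∧ P i ∣ i)
    {s : (ℤ × Finset ℕ) × (ℤ × Finset ℕ)} (hs1 : s.1.2 ⊆ R) (hs2 : s.2.2 ⊆ R)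
    (zs1 : zz g s.1 ≠ 0) (zs2 : zz g s.2 ≠ 0) {i : ℕ} (hi : i ∈ R) (he : err g P s i ≠ 0) :
    ((P i : ℤ) ^ i.factorization (P i) ∣ (zz g s.1).num) ∨
      ((P i : ℤ) ^ i.factorization (P i) ∣ (zz g s.2).num) := by
  obtain ⟨hp, hpi⟩ := hP i hi
  have : Fact (P i).Prime := ⟨hp⟩
  unfold err at he
  have h3 : ((i ∈ s.1.2 ∧ i ∉ s.2.2) ∨ (i ∉ s.1.2 ∧ i ∈ s.2.2)) ∧
    0 ≤ padicValRat (P i) (zz g s.1 * zz g s.2) := by
    by_contra hcon
    exact he (if_neg hcon)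
  obtain ⟨h4, h5⟩ := h3
  rw [padicValRat.mul zs1 zs2] at h5
  have n1 := _root_.Rat.num_ne_zero.2 zs1
  have n2 := _root_.Rat.num_ne_zero.2 zs2
  rcases h4 with ⟨h6, h7⟩ | ⟨h6, h7⟩
  · right
    rw [val_in h2 hg hR hs1 h6 hp hpi, val_out h2 hg hR hs2 hi h7 hp hpi] at h5
    rw [padicValInt_dvd_iff]
    right
    omega
  · left
    rw [val_out h2 hg hR hs1 hi h6 hp hpi, val_in h2 hg hR hs2 h7 hp hpi] at h5
    rw [padicValInt_dvd_iff]
    right
    omega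

end dig

end Pool.Agent.Helper96.Rat
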