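import Pool.Agent.Helper96.Rat.Tot

/-!
# Sums of rational numbers with coprime denominators, and quadruples with the same numerators
-/

set_option autoImplicit false

namespace Pool.Agent.Helper96.Rat

open Finset

lemma den_add {u v : ℚ} (h : Nat.Coprime u.den v.den) : (u + v).den = u.den * v.den := by
  refine Nat.dvd_antisymm (_root_.Rat.add_den_dvd u v) ?_
  refine Nat.Coprime.mul_dvd_of_dvd_of_dvd h ?_ ?_
  · have h1 := _root_.Rat.add_den_dvd (u + v) (-v)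
    rw [add_neg_cancel_right, _root_.Rat.neg_den] at h1
    exact h.dvd_of_dvd_mul_right h1
  · have h1 := _root_.Rat.add_den_dvd (u + v) (-u)
    rw [add_comm u v, add_neg_cancel_right, _root_.Rat.neg_den] at h1
    rw [add_comm u v]
    exact h.symm.dvd_of_dvd_mul_right h1

lemma den_sum {R : Finset ℕ} {g : ℕ → ℚ} (hg : ∀ i ∈ R, (g i).den = i)
    (hR : (R : Set ℕ).Pairwise Nat.Coprime) : ∀ T ⊆ R, (∑ i ∈ T, g i).den = ∏ i ∈ T, i := by
  intro T
  induction T using Finset.induction_on with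
  | empty => intro _; simp
  | insert a T ha ih =>
    intro hT
    have hTR : T ⊆ R := (subset_insert _ _).trans hT
    have haR : a ∈ R := hT (mem_insert_self _ _)
    rw [sum_insert ha, prod_insert ha, den_add, hg a haR, ih hTR]
    rw [hg a haR, ih hTR]
    refine Nat.Coprime.prod_right fun i hi => hR haR (hTR hi) ?_
    rintro rfl
    exact ha hi

lemma dvd_of_mul_int {y : ℚ} {c N : ℤ} (h : (c : ℚ) * y = N) : (y.den : ℤ) ∣ c := by
  have h1 : c * y.num = N * y.den := by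
    have h2 := _root_.Rat.mul_den_eq_num y
    have : ((c * y.num : ℤ) : ℚ) = ((N * y.den : ℤ) : ℚ) := by
      push_cast
      rw [← h2, ← mul_assoc, h]
    exact_mod_cast this
  have h3 : IsCoprime (y.den : ℤ) y.num := by
    rw [Int.isCoprime_iff_nat_coprime, Int.natAbs_natCast]
    exact y.reduced.symm
  exact h3.dvd_of_dvd_mul_right ⟨N, by rw [h1]; ring⟩

/-- the elements of the cube -/
def zz (g : ℕ → ℚ) (w : ℤ × Finset ℕ) : ℚ := (w.1 : ℚ) + ∑ i ∈ w.2, g i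

lemma zz_den {R : Finset ℕ} {g : ℕ → ℚ} (hg : ∀ i ∈ R, (g i).den = i)
    (hR : (R : Set ℕ).Pairwise Nat.Coprime) {w : ℤ × Finset ℕ} (hw : w.2 ⊆ R) :
    (zz g w).den = ∏ i ∈ w.2, i := by
  unfold zz
  rw [_root_.Rat.intCast_add_den, den_sum hg hR _ hw]

/-- two elements with the same numerator -/
lemma same_num {R : Finset ℕ} {g : ℕ → ℚ} (h2 : ∀ i ∈ R, 2 ≤ i) (hg : ∀ i ∈ R, (g i).den = i)
    (hR : (R : Set ℕ).Pairwise Nat.Coprime) {w v : ℤ × Finset ℕ} (hw : w.2 ⊆ R) (hv : v.2 ⊆ R)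
    (h : (zz g w).num = (zz g v).num) {i : ℕ} (hi : i ∈ w.2 ∩ v.2) :
    (i : ℤ) ∣ ((∏ i ∈ w.2 \ v.2, i : ℕ) : ℤ) - ((∏ i ∈ v.2 \ w.2, i : ℕ) : ℤ) := by
  set T0 := w.2 ∩ v.2 with hT0
  set a := ∏ i ∈ w.2 \ v.2, i with ha
  set b := ∏ i ∈ v.2 \ w.2, i with hb
  set p := ∏ i ∈ T0, i with hp
  have hT0R : T0 ⊆ R := inter_subset_left.trans hw
  have e1 : ∏ i ∈ w.2, i = p * a := by
    rw [hp, ha, hT0, mul_comm, ← prod_union (disjoint_sdiff_inter _ _), sdiff_union_inter]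
  have e2 : ∏ i ∈ v.2, i = p * b := by
    rw [hp, hb, hT0, mul_comm, inter_comm, ← prod_union (disjoint_sdiff_inter _ _),
      sdiff_union_inter]
  have hp0 : (p : ℚ) ≠ 0 := by
    rw [hp]
    have : 0 < ∏ i ∈ T0, i := prod_pos fun i hi => by have := h2 i (hT0R hi); omega
    exact_mod_cast this.ne'
  have f1 : zz g w * (p * a) = zz g v * (p * b) := by
    have k1 := _root_.Rat.mul_den_eq_num (zz g w)
    have k2 := _root_.Rat.mul_den_eq_num (zz g v)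
    rw [zz_den hg hR hw, e1] at k1
    rw [zz_den hg hR hv, e2] at k2
    push_cast at k1 k2
    rw [k1, k2, h]
  have f2 : zz g w * a = zz g v * b := by
    have : (p : ℚ) * (zz g w * a) = p * (zz g v * b) := by linear_combination f1
    exact mul_left_cancel₀ hp0 this
  have g1 : ∑ i ∈ w.2, g i = ∑ i ∈ T0, g i + ∑ i ∈ w.2 \ v.2, g i := by
    rw [hT0, add_comm, ← sum_union (disjoint_sdiff_inter _ _), sdiff_union_inter]
  have g2 : ∑ i ∈ v.2, g i = ∑ i ∈ T0, g i + ∑ i ∈ v.2 \ w.2, g i := by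
    rw [hT0, add_comm, inter_comm, ← sum_union (disjoint_sdiff_inter _ _), sdiff_union_inter]
  have k1 := _root_.Rat.mul_den_eq_num (∑ i ∈ w.2 \ v.2, g i)
  have k2 := _root_.Rat.mul_den_eq_num (∑ i ∈ v.2 \ w.2, g i)
  rw [den_sum hg hR _ (sdiff_subset.trans hw), ← ha] at k1
  rw [den_sum hg hR _ (sdiff_subset.trans hv), ← hb] at k2
  unfold zz at f2
  rw [g1, g2] at f2
  set y := ∑ i ∈ T0, g i with hy
  set n1 := (∑ i ∈ w.2 \ v.2, g i).num
  set n2 := (∑ i ∈ v.2 \ w.2, g i).num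
  have key : (((a : ℤ) - (b : ℤ) : ℤ) : ℚ) * y = ((v.1 * b + n2 - w.1 * a - n1 : ℤ) : ℚ) := by
    push_cast
    linear_combination f2 + k2 - k1
  have h3 := dvd_of_mul_int key
  rw [hy, den_sum hg hR _ hT0R] at h3
  refine dvd_trans ?_ h3
  exact_mod_cast dvd_prod_of_mem (fun i => i) hi

/-- two sets from the product of the products -/
lemma two_sets {R : Finset ℕ} (h2 : ∀ i ∈ R, 2 ≤ i) (hR : (R : Set ℕ).Pairwise Nat.Coprime)
    {T T' V V' : Finset ℕ} (hT : T ⊆ R) (hT' : T' ⊆ R) (hV : V ⊆ R) (hV' : V' ⊆ R)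
    (h : (∏ i ∈ T, i) * ∏ i ∈ T', i = (∏ i ∈ V, i) * ∏ i ∈ V', i) : T \ V = V' \ T' := by
  have key : ∀ {T T' V V' : Finset ℕ}, T ⊆ R → T' ⊆ R → V ⊆ R → V' ⊆ R →
      (∏ i ∈ T, i) * ∏ i ∈ T', i = (∏ i ∈ V, i) * ∏ i ∈ V', i → T \ V ⊆ V' \ T' := by
    intro T T' V V' hT hT' hV hV' h i hi
    rw [mem_sdiff] at hi ⊢
    have hiR := hT hi.1
    have hi2 := h2 i hiR
    have cop : ∀ W : Finset ℕ, W ⊆ R → i ∉ W → Nat.Coprime i (∏ j ∈ W, j) := by
      intro W hW hiW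
      refine Nat.Coprime.prod_right fun j hj => hR hiR (hW hj) ?_
      rintro rfl
      exact hiW hj
    have hd : i ∣ ∏ j ∈ T, j := dvd_prod_of_mem _ hi.1
    have hV1 : i ∈ V' := by
      by_contra hc
      have h1 : i ∣ (∏ i ∈ V, i) * ∏ i ∈ V', i := h ▸ Dvd.dvd.mul_right hd _
      have h3 := Nat.Coprime.eq_one_of_dvd ((cop V hV hi.2).mul_right (cop V' hV' hc)) h1
      omega
    refine ⟨hV1, fun hiT' => ?_⟩
    have h1 : i * i ∣ (∏ i ∈ V, i) * ∏ i ∈ V', i :=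
      h ▸ Nat.mul_dvd_mul hd (dvd_prod_of_mem _ hiT')
    have h3 : i * i ∣ ∏ i ∈ V', i :=
      (Nat.Coprime.mul_left (cop V hV hi.2) (cop V hV hi.2)).dvd_of_dvd_mul_left h1
    rw [← mul_prod_erase V' (fun i => i) hV1] at h3
    have h4 : i ∣ ∏ j ∈ V'.erase i, j := Nat.dvd_of_mul_dvd_mul_left (by omega) h3
    have h5 := Nat.Coprime.eq_one_of_dvd
      (cop (V'.erase i) ((erase_subset _ _).trans hV') (notMem_erase _ _)) h4
    omega
  refine Subset.antisymm (key hT hT' hV hV' h) (key hV' hV hT' hT ?_)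
  rw [mul_comm, ← h, mul_comm]

lemma zz_inj {R : Finset ℕ} {g : ℕ → ℚ} (h2 : ∀ i ∈ R, 2 ≤ i) (hg : ∀ i ∈ R, (g i).den = i)
    (hR : (R : Set ℕ).Pairwise Nat.Coprime) {w v : ℤ × Finset ℕ} (hw : w.2 ⊆ R) (hv : v.2 ⊆ R)
    (h : zz g w = zz g v) : w = v := by
  have h1 : w.2 = v.2 := by
    refine prod_inj h2 hR hw hv ?_
    rw [← zz_den hg hR hw, ← zz_den hg hR hv, h]
  unfold zz at h
  rw [h1] at h
  have h3 : w.1 = v.1 := by exact_mod_cast add_right_cancel h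
  exact Prod.ext h3 h1

/-- **The number of quadruples.** -/
theorem quad (R : Finset ℕ) (g : ℕ → ℚ) (h2 : ∀ i ∈ R, 2 ≤ i) (hg : ∀ i ∈ R, (g i).den = i)
    (hR : (R : Set ℕ).Pairwise Nat.Coprime) (X1 X2 : Finset ℤ)
    (Q : Finset (((ℤ × Finset ℕ) × (ℤ × Finset ℕ)) × ((ℤ × Finset ℕ) × (ℤ × Finset ℕ))))
    (hQ : ∀ s ∈ Q, s.1.1 ∈ X1 ×ˢ R.powerset ∧ s.1.2 ∈ X2 ×ˢ R.powerset ∧
      s.2.1 ∈ X1 ×ˢ R.powerset ∧ s.2.2 ∈ X2 ×ˢ R.powerset ∧
      (zz g s.1.1).num = (zz g s.2.1).num ∧ (zz g s.1.2).num = (zz g s.2.2).num ∧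
      (zz g s.1.1).den * (zz g s.1.2).den = (zz g s.2.1).den * (zz g s.2.2).den) :
    Q.card ≤ 3 * (2 * R.card + 1) * (R.card + 1) * ((X1.card * 2 ^ R.card) * (X2.card * 2 ^ R.card)) := by
  have h1 : Q.card ≤ ((dp R).sigma fun K =>
      (X1 ×ˢ (jj R K).powerset) ×ˢ (X2 ×ˢ (jj R K).powerset)).card := by
    refine card_le_card_of_injOn (fun s => ⟨(s.1.1.2 \ s.2.1.2, s.2.1.2 \ s.1.1.2),
      ((s.1.1.1, s.1.1.2 ∩ s.2.1.2), (s.1.2.1, s.1.2.2 ∩ s.2.2.2))⟩) ?_ ?_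
    · intro s hs
      obtain ⟨a1, a2, a3, a4, a5, a6, a7⟩ := hQ s (mem_coe.1 hs)
      rw [mem_product, mem_powerset] at a1 a2 a3 a4
      rw [zz_den hg hR a1.2, zz_den hg hR a2.2, zz_den hg hR a3.2, zz_den hg hR a4.2] at a7
      have b1 := two_sets h2 hR a1.2 a2.2 a3.2 a4.2 a7
      have b2 := two_sets h2 hR a3.2 a4.2 a1.2 a2.2 a7.symm
      rw [mem_coe, mem_sigma]
      refine ⟨mem_dp.2 ⟨sdiff_subset.trans a1.2, sdiff_subset.trans a3.2, ?_⟩, ?_⟩
      · exact disjoint_sdiff_sdiff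
      · rw [mem_product, mem_product, mem_product, mem_powerset, mem_powerset]
        refine ⟨⟨a1.1, ?_⟩, ⟨a2.1, ?_⟩⟩
        · intro i hi
          have hi' := mem_inter.1 hi
          rw [mem_jj]
          refine ⟨a1.2 hi'.1, fun h => (mem_sdiff.1 h).2 hi'.2, fun h => (mem_sdiff.1 h).2 hi'.1, ?_⟩
          exact same_num h2 hg hR a1.2 a3.2 a5 hi
        · intro i hi
          have hi' := mem_inter.1 hi
          rw [mem_jj]
          have h3 := same_num h2 hg hR a2.2 a4.2 a6 hi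
          refine ⟨a2.2 hi'.1, ?_, ?_, ?_⟩
          · show i ∉ s.1.1.2 \ s.2.1.2
            rw [b1]
            exact fun h => (mem_sdiff.1 h).2 hi'.1
          · show i ∉ s.2.1.2 \ s.1.1.2
            rw [b2]
            exact fun h => (mem_sdiff.1 h).2 hi'.2
          · show (i : ℤ) ∣ ((∏ i ∈ s.1.1.2 \ s.2.1.2, i : ℕ) : ℤ) - ((∏ i ∈ s.2.1.2 \ s.1.1.2, i : ℕ) : ℤ)
            rw [b1, b2, ← neg_sub, dvd_neg]
            exact h3
    · intro s hs t ht hst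
      obtain ⟨a1, a2, a3, a4, a5, a6, a7⟩ := hQ s (mem_coe.1 hs)
      obtain ⟨c1, c2, c3, c4, c5, c6, c7⟩ := hQ t (mem_coe.1 ht)
      rw [mem_product, mem_powerset] at a1 a2 a3 a4 c1 c2 c3 c4
      rw [zz_den hg hR a1.2, zz_den hg hR a2.2, zz_den hg hR a3.2, zz_den hg hR a4.2] at a7
      rw [zz_den hg hR c1.2, zz_den hg hR c2.2, zz_den hg hR c3.2, zz_den hg hR c4.2] at c7
      have b1 := two_sets h2 hR a1.2 a2.2 a3.2 a4.2 a7
      have b2 := two_sets h2 hR a3.2 a4.2 a1.2 a2.2 a7.symm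
      have d1 := two_sets h2 hR c1.2 c2.2 c3.2 c4.2 c7
      have d2 := two_sets h2 hR c3.2 c4.2 c1.2 c2.2 c7.symm
      simp only [Sigma.mk.injEq, Prod.mk.injEq, heq_eq_eq] at hst
      obtain ⟨⟨e1, e2⟩, ⟨e3, e4⟩, ⟨e5, e6⟩⟩ := hst
      have join : ∀ {A B C D : Finset ℕ}, A \ B = C \ D → A ∩ B = C ∩ D → A = C := by
        intro A B C D h3 h4
        rw [← sdiff_union_inter A B, ← sdiff_union_inter C D, h3, h4]
      have f1 : s.1.1.2 = t.1.1.2 := join e1 e4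
      have f2 : s.2.1.2 = t.2.1.2 := join e2 (by rw [inter_comm, e4, inter_comm])
      have f3 : s.1.2.2 = t.1.2.2 := join (B := s.2.2.2) (D := t.2.2.2) (by rw [← b2, ← d2, e2]) e6
      have f4 : s.2.2.2 = t.2.2.2 :=
        join (B := s.1.2.2) (D := t.1.2.2) (by rw [← b1, ← d1, e1]) (by rw [inter_comm, e6, inter_comm])
      have g1 : s.1.1 = t.1.1 := Prod.ext e3 f1
      have g2 : s.1.2 = t.1.2 := Prod.ext e5 f3
      have nd : ∀ {u v : ℤ × Finset ℕ}, u.2 ⊆ R → v.2 ⊆ R → (zz g u).num = (zz g v).num →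
          u.2 = v.2 → u = v := by
        intro u v hu hv h3 h4
        refine zz_inj h2 hg hR hu hv ?_
        refine _root_.Rat.ext h3 ?_
        rw [zz_den hg hR hu, zz_den hg hR hv, h4]
      have g3 : s.2.1 = t.2.1 := nd a3.2 c3.2 (by rw [← a5, ← c5, g1]) f2
      have g4 : s.2.2 = t.2.2 := nd a4.2 c4.2 (by rw [← a6, ← c6, g2]) f4
      exact Prod.ext (Prod.ext g1 g2) (Prod.ext g3 g4)
  refine h1.trans ?_
  rw [card_sigma]
  have h3 := total R h2 hR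
  calc ∑ K ∈ dp R, ((X1 ×ˢ (jj R K).powerset) ×ˢ (X2 ×ˢ (jj R K).powerset)).card
      = (X1.card * X2.card) * ∑ K ∈ dp R, 4 ^ (jj R K).card := by
        rw [mul_sum]
        refine sum_congr rfl fun K _ => ?_
        rw [card_product, card_product, card_product, card_powerset,
          show (4 : ℕ) = 2 * 2 from rfl, mul_pow]
        ring
    _ ≤ (X1.card * X2.card) * (3 * (2 * R.card + 1) * (R.card + 1) * 4 ^ R.card) :=
        Nat.mul_le_mul_left _ h3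
    _ = _ := by
        rw [show (4 : ℕ) = 2 * 2 from rfl, mul_pow]
        ring

end Pool.Agent.Helper96.Rat
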