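import Pool.Agent.Helper96.Shf.Cube
import Pool.Agent.Helper96.Rat.Quad

/-!
# The numerators of the elements of a cube are rarely divisible by a large prime power
-/

set_option autoImplicit false

namespace Pool.Agent.Helper96.Rat

open Finset Pool.Agent.Helper96.Shf

/-- the rational numbers which are divisible by `p ^ j` in the ring of `p`-integral numbers -/
def sm (p j : ℕ) (hp : p.Prime) : AddSubgroup ℚ where
  carrier := {y | ∃ a b : ℤ, ¬ (p : ℤ) ∣ b ∧ y * b = (p : ℚ) ^ j * a}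
  zero_mem' := ⟨0, 1, by
    intro h
    have := Int.natCast_dvd_natCast.1 (by simpa using h : (p : ℤ) ∣ ((1 : ℕ) : ℤ))
    exact hp.one_lt.ne' (Nat.dvd_one.1 this), by simp⟩
  add_mem' := by
    rintro y y' ⟨a, b, h1, h2⟩ ⟨a', b', h1', h2'⟩
    refine ⟨a * b' + a' * b, b * b', ?_, ?_⟩
    · intro h
      rcases (Nat.prime_iff_prime_int.1 hp).dvd_or_dvd h with h | h
      · exact h1 h
      · exact h1' h
    · push_cast
      linear_combination (b' : ℚ) * h2 + (b : ℚ) * h2'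
  neg_mem' := by
    rintro y ⟨a, b, h1, h2⟩
    refine ⟨-a, b, h1, ?_⟩
    push_cast
    linear_combination -h2

lemma mem_sm {p j : ℕ} {hp : p.Prime} {y : ℚ} :
    y ∈ sm p j hp ↔ ∃ a b : ℤ, ¬ (p : ℤ) ∣ b ∧ y * b = (p : ℚ) ^ j * a := Iff.rfl

lemma mem_sm_of_dvd {p j : ℕ} (hp : p.Prime) (hj : 1 ≤ j) {y : ℚ} (h : (p : ℤ) ^ j ∣ y.num) :
    y ∈ sm p j hp := by
  obtain ⟨a, ha⟩ := h
  refine mem_sm.2 ⟨a, y.den, ?_, ?_⟩
  · intro hd
    have h1 : p ∣ y.den := Int.natCast_dvd_natCast.1 hd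
    have h2 : (p : ℤ) ∣ y.num := by
      rw [ha]
      exact Dvd.dvd.mul_right (dvd_pow_self _ (by omega)) _
    have h3 : p ∣ y.num.natAbs := Int.natCast_dvd.1 h2
    have h4 := Nat.dvd_gcd h3 h1
    rw [Nat.Coprime.gcd_eq_one y.reduced] at h4
    exact hp.one_lt.ne' (Nat.dvd_one.1 h4)
  · have h1 := _root_.Rat.mul_den_eq_num y
    rw [ha] at h1
    push_cast at h1 ⊢
    exact h1

lemma dvd_of_mem_sm {p j : ℕ} (hp : p.Prime) {y : ℚ} {k : ℕ} (h : (k : ℚ) * y ∈ sm p j hp) :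
    (p : ℤ) ^ j ∣ k * y.num := by
  obtain ⟨a, b, h1, h2⟩ := mem_sm.1 h
  have h3 := _root_.Rat.mul_den_eq_num y
  have h4 : (k * y.num) * b = (p : ℤ) ^ j * (a * y.den) := by
    have : ((k * y.num * b : ℤ) : ℚ) = (((p : ℤ) ^ j * (a * y.den) : ℤ) : ℚ) := by
      push_cast
      rw [← h3]
      linear_combination (y.den : ℚ) * h2
    exact_mod_cast this
  have h5 : IsCoprime ((p : ℤ) ^ j) b := by
    refine IsCoprime.pow_left ?_
    rw [Prime.coprime_iff_not_dvd (Nat.prime_iff_prime_int.1 hp)]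
    exact h1
  exact h5.dvd_of_dvd_mul_right ⟨_, h4⟩

/-- **Large prime powers are unpopular.** -/
theorem unpop (δ : ℝ) (hδ : 0 < δ) : ∃ n0 m0 : ℕ, 0 < m0 ∧ ∀ (g : ℕ → ℚ) (R : Finset ℕ) (M K : ℕ),
    M ≠ 0 → (∀ p : ℕ, p.Prime →
      (R.filter fun i => (p : ℤ) ^ (M.factorization p + 1) ∣ (g i).num).card ≤ K) →
    n0 + K ≤ R.card → ∀ x : ℤ, ∀ p : ℕ, p.Prime → ∀ j : ℕ, 1 ≤ j → m0 * M ≤ p ^ j →
      ((R.powerset.filter fun T => (p : ℤ) ^ j ∣ (zz g (x, T)).num).card : ℝ) ≤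
        δ * 2 ^ R.card := by
  classical
  obtain ⟨n0, m0, hm0, H⟩ := concentration δ hδ
  refine ⟨n0, m0, hm0, ?_⟩
  intro g R M K hM hR hc x p hp j hj1 hj
  have hj' : m0 * p ^ M.factorization p ≤ p ^ j :=
    (Nat.mul_le_mul_left _ (Nat.ordProj_le p hM)).trans hj
  set I := R.filter fun i => ¬ (p : ℤ) ^ (M.factorization p + 1) ∣ (g i).num with hI
  have hIc : n0 ≤ I.card := by
    have h1 := card_filter_add_card_filter_not (s := R)
      (fun i => (p : ℤ) ^ (M.factorization p + 1) ∣ (g i).num)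
    have h2 := hR p hp
    have h3 : I.card = (R.filter fun i => ¬ (p : ℤ) ^ (M.factorization p + 1) ∣ (g i).num).card := by
      rw [hI]
    omega
  have h1 := H (G := ℚ ⧸ sm p j hp) (fun i => ((g i : ℚ) : ℚ ⧸ sm p j hp)) R I
    (filter_subset _ _) hIc (by
      intro i hi k hk hkm hz
      rw [hI, mem_filter] at hi
      refine not_dvd_mul hp hi.2 hk hkm hj' ?_
      refine dvd_of_mem_sm (j := j) hp ?_
      rw [← QuotientAddGroup.mk_nsmul, QuotientAddGroup.eq_zero_iff, nsmul_eq_mul] at hz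
      exact hz) (-((x : ℚ) : ℚ ⧸ sm p j hp))
  refine le_trans ?_ h1
  rw [Nat.cast_le]
  refine card_le_card fun T hT => ?_
  obtain ⟨hT1, hT2⟩ := mem_filter.1 hT
  refine (@mem_filter _ _ (fun _ => Classical.propDecidable _) _ _).2 ⟨hT1, ?_⟩
  have h2 := mem_sm_of_dvd hp hj1 hT2
  rw [← QuotientAddGroup.eq_zero_iff] at h2
  unfold zz at h2
  rw [QuotientAddGroup.mk_add, QuotientAddGroup.mk_sum] at h2
  rw [eq_neg_iff_add_eq_zero, add_comm]
  exact h2

end Pool.Agent.Helper96.Rat
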