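import Pool.Agent.Helper96.Rat.Bin
import Pool.Agent.Helper96.Rat.Dig
import Pool.Agent.Helper96.Rat.Unp
import Pool.Graph.R_pool_sql_team_seeded_3997aac3.Q137.Shifts.Shift

/-!
# Products of cubes with many non-integral steps
-/

set_option autoImplicit false

namespace Pool.Agent.Helper96.Rat

open Finset Pool.Agent.Y359.PE Q137.Shifts
open scoped Pointwise

/-- counting in a product -/
lemma cnt_prod {α β : Type*} (X : Finset α) (Y : Finset β) (p : α × β → Prop) [DecidablePred p]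
    {δ : ℝ} (h : ∀ x ∈ X, ((Y.filter fun y => p (x, y)).card : ℝ) ≤ δ) :
    (((X ×ˢ Y).filter p).card : ℝ) ≤ X.card * δ := by
  rw [card_filter, sum_product]
  push_cast
  have h1 : ∀ x ∈ X, (∑ y ∈ Y, (if p (x, y) then (1 : ℝ) else 0)) ≤ δ := by
    intro x hx
    refine le_trans (le_of_eq ?_) (h x hx)
    rw [card_filter]
    push_cast
    rfl
  refine (sum_le_sum h1).trans (le_of_eq ?_)
  rw [sum_const, nsmul_eq_mul]

/-- the bound for the number of quadruples -/
lemma log_E {ε : ℝ} (hε : 0 < ε) : ∃ C : ℝ, ∀ r : ℕ,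
    Real.log (12 * (2 * r + 1) * (r + 1)) ≤ ε * r + C := by
  set s := ε / 2 with hs
  have hs0 : 0 < s := by positivity
  refine ⟨Real.log 24 + 2 * (s - 1 - Real.log s), fun r => ?_⟩
  have hr : (0 : ℝ) ≤ r := Nat.cast_nonneg r
  have h1 : Real.log (12 * (2 * r + 1) * (r + 1)) ≤ Real.log (24 * ((r + 1) * (r + 1))) := by
    refine Real.log_le_log (by positivity) ?_
    nlinarith
  have h2 := Real.log_le_sub_one_of_pos (show (0 : ℝ) < (r + 1) * s by positivity)
  rw [Real.log_mul (by positivity) hs0.ne'] at h2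
  have h5 : Real.log (24 * (((r : ℝ) + 1) * (r + 1))) =
      Real.log 24 + (Real.log (r + 1) + Real.log (r + 1)) := by
    rw [Real.log_mul (by norm_num) (by positivity), Real.log_mul (by positivity) (by positivity)]
  have h3 : ((r : ℝ) + 1) * s = r * s + s := by ring
  have h4 : ε * r = 2 * (r * s) := by rw [hs]; ring
  linarith

section L

variable {R : Finset ℕ} {g : ℕ → ℚ} (h2 : ∀ i ∈ R, 2 ≤ i) (hg : ∀ i ∈ R, (g i).den = i)
  (hR : (R : Set ℕ).Pairwise Nat.Coprime)

include h2 hg hR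

/-- the entropy of the product of the denominators, given the product -/
lemma L_bound (A B : Finset (ℤ × Finset ℕ)) (hA : A.Nonempty) (hB : B.Nonempty)
    (hAR : ∀ a ∈ A, a.2 ⊆ R ∧ zz g a ≠ 0) (hBR : ∀ a ∈ B, a.2 ⊆ R ∧ zz g a ≠ 0)
    {t : ℝ} (ht : 0 ≤ t) (ht1 : t ≤ 1) (m : ℕ)
    (hAp : ∀ p : ℕ, p.Prime → ∀ j : ℕ, 1 ≤ j → m ≤ p ^ j →
      ((A.filter fun a => (p : ℤ) ^ j ∣ (zz g a).num).card : ℝ) ≤ t ^ 2 / 2 * A.card)
    (hBp : ∀ p : ℕ, p.Prime → ∀ j : ℕ, 1 ≤ j → m ≤ p ^ j →
      ((B.filter fun a => (p : ℤ) ^ j ∣ (zz g a).num).card : ℝ) ≤ t ^ 2 / 2 * B.card) :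
    h (A ×ˢ B) (fun s => (zz g s.1 * zz g s.2, (zz g s.1).den * (zz g s.2).den)) -
      h (A ×ˢ B) (fun s => zz g s.1 * zz g s.2) ≤ R.card * (3 * t) + m * Real.log 2 := by
  classical
  have hAB := hA.product hB
  have hP : ∀ i ∈ R, (Nat.minFac i).Prime ∧ Nat.minFac i ∣ i := by
    intro i hi
    have := h2 i hi
    exact ⟨Nat.minFac_prime (by omega), Nat.minFac_dvd i⟩
  have k1 : h (A ×ˢ B) (fun s => (zz g s.1 * zz g s.2, (zz g s.1).den * (zz g s.2).den)) ≤
      h (A ×ˢ B) (fun s => (zz g s.1 * zz g s.2, mk R (err g Nat.minFac) s)) := by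
    refine h_mono _ _ _ ?_
    intro s hs t' ht' hst
    rw [mem_product] at hs ht'
    rw [Prod.mk.injEq, mk_eq_iff] at hst
    rw [Prod.mk.injEq]
    refine ⟨hst.1, ?_⟩
    exact determined h2 hg hR hP (hAR _ hs.1).1 (hBR _ hs.2).1 (hAR _ ht'.1).1 (hBR _ ht'.2).1
      (hAR _ hs.1).2 (hBR _ hs.2).2 (hAR _ ht'.1).2 (hBR _ ht'.2).2 hst.1 hst.2
  have k2 := h_pair_le (A ×ˢ B) (fun s => zz g s.1 * zz g s.2) (mk R (err g Nat.minFac))
  have k3 := h_mk_le (A ×ˢ B) R (err g Nat.minFac)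
  have hbit : ∀ i : ℕ, ∀ s ∈ A ×ˢ B, err g Nat.minFac s i = 0 ∨ err g Nat.minFac s i = 1 := by
    intro i s _
    unfold err
    split_ifs
    · right; rfl
    · left; rfl
  set good := R.filter fun i => m ≤ (Nat.minFac i) ^ i.factorization (Nat.minFac i) with hgood
  set bad := R.filter fun i => ¬ m ≤ (Nat.minFac i) ^ i.factorization (Nat.minFac i) with hbad
  have he1 : ∀ i ∈ R, 1 ≤ i.factorization (Nat.minFac i) := by
    intro i hi
    have := h2 i hi
    exact ((hP i hi).1.dvd_iff_one_le_factorization (by omega)).1 (hP i hi).2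
  have k4 : ∑ i ∈ R, h (A ×ˢ B) (fun a => err g Nat.minFac a i) =
      ∑ i ∈ good, h (A ×ˢ B) (fun a => err g Nat.minFac a i) +
      ∑ i ∈ bad, h (A ×ˢ B) (fun a => err g Nat.minFac a i) :=
    (sum_filter_add_sum_filter_not _ _ _).symm
  have k5 : ∑ i ∈ bad, h (A ×ˢ B) (fun a => err g Nat.minFac a i) ≤ m * Real.log 2 := by
    have hc : bad.card ≤ m := by
      have : bad.card ≤ (range m).card := by
        refine card_le_card_of_injOn Nat.minFac ?_ ?_
        · intro i hi
          rw [mem_coe, hbad, mem_filter] at hi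
          rw [mem_coe, mem_range]
          have h3 := hi.2
          have h4 : Nat.minFac i ≤ (Nat.minFac i) ^ i.factorization (Nat.minFac i) :=
            Nat.le_self_pow (by have := he1 i hi.1; omega) _
          omega
        · intro i hi j hj hij
          rw [mem_coe, hbad, mem_filter] at hi hj
          by_contra hne
          have hc := hR hi.1 hj.1 hne
          have h5 := (hP i hi.1)
          have h6 := (hP j hj.1)
          have h7 := Nat.dvd_gcd h5.2 (hij ▸ h6.2)
          rw [hc.gcd_eq_one] at h7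
          exact h5.1.one_lt.ne' (Nat.dvd_one.1 h7)
      rwa [card_range] at this
    have hl2 : 0 ≤ Real.log 2 := Real.log_nonneg (by norm_num)
    calc ∑ i ∈ bad, h (A ×ˢ B) (fun a => err g Nat.minFac a i) ≤ ∑ i ∈ bad, Real.log 2 :=
          sum_le_sum fun i _ => h_bit _ hAB _ (hbit i)
      _ = bad.card * Real.log 2 := by rw [sum_const, nsmul_eq_mul]
      _ ≤ _ := mul_le_mul_of_nonneg_right (by exact_mod_cast hc) hl2
  have k6 : ∑ i ∈ good, h (A ×ˢ B) (fun a => err g Nat.minFac a i) ≤ R.card * (3 * t) := by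
    calc ∑ i ∈ good, h (A ×ˢ B) (fun a => err g Nat.minFac a i) ≤ ∑ i ∈ good, 3 * t := by
          refine sum_le_sum fun i hi => ?_
          rw [hgood, mem_filter] at hi
          refine h_bin _ hAB _ (hbit i) ht ht1 ?_
          set p := Nat.minFac i with hpd
          set e := i.factorization p with hed
          have hsub : ((A ×ˢ B).filter fun s => err g Nat.minFac s i ≠ 0) ⊆
              (A.filter fun a => (p : ℤ) ^ e ∣ (zz g a).num) ×ˢ B ∪
              A ×ˢ (B.filter fun a => (p : ℤ) ^ e ∣ (zz g a).num) := by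
            intro s hs
            rw [mem_filter, mem_product] at hs
            have h3 := err_dvd h2 hg hR hP (hAR _ hs.1.1).1 (hBR _ hs.1.2).1 (hAR _ hs.1.1).2
              (hBR _ hs.1.2).2 hi.1 hs.2
            rw [mem_union, mem_product, mem_product, mem_filter, mem_filter]
            rcases h3 with h3 | h3
            · exact Or.inl ⟨⟨hs.1.1, h3⟩, hs.1.2⟩
            · exact Or.inr ⟨hs.1.1, ⟨hs.1.2, h3⟩⟩
          have h4 : (((A ×ˢ B).filter fun s => err g Nat.minFac s i ≠ 0).card : ℝ) ≤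
              (A.filter fun a => (p : ℤ) ^ e ∣ (zz g a).num).card * B.card +
              A.card * (B.filter fun a => (p : ℤ) ^ e ∣ (zz g a).num).card := by
            have h5 := (card_le_card hsub).trans (card_union_le _ _)
            rw [card_product, card_product] at h5
            exact_mod_cast h5
          have h6 := hAp p (hP i hi.1).1 e (he1 i hi.1) hi.2
          have h7 := hBp p (hP i hi.1).1 e (he1 i hi.1) hi.2
          rw [card_product]
          push_cast
          have hA0 : (0 : ℝ) ≤ A.card := Nat.cast_nonneg _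
          have hB0 : (0 : ℝ) ≤ B.card := Nat.cast_nonneg _
          nlinarith [mul_le_mul_of_nonneg_right h6 hB0, mul_le_mul_of_nonneg_left h7 hA0]
      _ = good.card * (3 * t) := by rw [sum_const, nsmul_eq_mul]
      _ ≤ _ := mul_le_mul_of_nonneg_right
          (by exact_mod_cast card_le_card (filter_subset _ _)) (by positivity)
  linarith

end L

/-- **Cubes with many non-integral steps.** -/
theorem big (ε : ℝ) (hε : 0 < ε) (hε1 : ε ≤ 1) : ∃ n0 : ℕ, ∀ M : ℕ, M ≠ 0 → ∃ c : ℝ, 0 < c ∧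
    ∀ (K : ℕ) (g : ℕ → ℚ) (R : Finset ℕ), (∀ i ∈ R, 2 ≤ i) → (∀ i ∈ R, (g i).den = i) →
      (R : Set ℕ).Pairwise Nat.Coprime →
      (∀ p : ℕ, p.Prime →
        (R.filter fun i => (p : ℤ) ^ (M.factorization p + 1) ∣ (g i).num).card ≤ K) →
      n0 + K ≤ R.card → ∀ X1 X2 : Finset ℤ, X1.Nonempty → X2.Nonempty →
      c * (((X1.card : ℝ) * 2 ^ R.card) * (X2.card * 2 ^ R.card)) ^ (1 - ε) ≤
        (((X1 ×ˢ R.powerset).image (zz g) * (X2 ×ˢ R.powerset).image (zz g)).card : ℝ) := by
  classical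
  have hl2 : 0 < Real.log 2 := Real.log_pos (by norm_num)
  have hl2' : (0.6931471803 : ℝ) < Real.log 2 := Real.log_two_gt_d9
  set θ := Real.exp (-(32 / ε)) with hθd
  have hθ : 0 < θ := Real.exp_pos _
  have hlogθ : Real.log (1 / θ) = 32 / ε := by
    rw [one_div, Real.log_inv, hθd, Real.log_exp, neg_neg]
  have hθ1 : θ ≤ 1 / 9 := by
    have h1 : 32 ≤ 32 / ε := by
      rw [le_div_iff₀ hε]
      linarith
    have h3 : Real.log 9 ≤ 32 / ε := by
      have := Real.log_le_sub_one_of_pos (show (0 : ℝ) < 9 by norm_num)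
      linarith
    rw [← hlogθ, Real.log_le_log_iff (by norm_num) (by positivity), le_div_iff₀ hθ] at h3
    linarith
  set t := ε / 64 with htd
  have ht0 : 0 < t := by positivity
  have ht1 : t ≤ 1 := by linarith
  set τ := min (θ * ε / 8) (t ^ 2 / 2) with hτd
  have hτ0 : 0 < τ := lt_min (by positivity) (by positivity)
  have hτ1 : τ ≤ θ * ε / 8 := min_le_left _ _
  have hτ2 : τ ≤ t ^ 2 / 2 := min_le_right _ _
  have hκ1 : 4 / Real.log (1 / θ) = ε / 8 := by
    rw [hlogθ]
    field_simp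
    norm_num
  have hκ2 : τ / θ ≤ ε / 8 := by
    rw [div_le_iff₀ hθ]
    linarith
  obtain ⟨n0, m0, hm0, HU⟩ := unpop (τ / 2) (by positivity)
  refine ⟨n0 + 1, fun M hM => ?_⟩
  set m1 := m0 * M with hm1
  set Q := 1 * Pool.Agent.Helper96.Shf.smo m1 with hQd
  have hQ : Q ≠ 0 := by
    rw [hQd, one_mul]
    exact Pool.Agent.Helper96.Shf.smo_ne _
  obtain ⟨C', hC'⟩ := log_E (show 0 < ε / 8 * Real.log 2 by positivity)
  set C := 2 * Real.log 2 + m1 * Real.log 2 + C' + 2 * Real.log (2 * Q.divisors.card) with hC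
  refine ⟨Real.exp (-C), Real.exp_pos _, ?_⟩
  intro K g R h2 hg hR hK hc X1 X2 hX1 hX2
  set r := R.card with hr
  have hr1 : 1 ≤ r := by omega
  -- the sets without zero
  have hO : ∀ X : Finset ℤ, X.Nonempty →
      (((X ×ˢ R.powerset).card : ℝ) ≤ 2 * (((X ×ˢ R.powerset).filter fun w => zz g w ≠ 0).card : ℝ)) ∧
      ((X ×ˢ R.powerset).filter fun w => zz g w ≠ 0).Nonempty := by
    intro X hX
    have h3 : ((X ×ˢ R.powerset).filter fun w => ¬ zz g w ≠ 0).card ≤ 1 := by
      rw [card_le_one]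
      intro a ha b hb
      rw [mem_filter, mem_product, mem_powerset, not_not] at ha hb
      exact zz_inj h2 hg hR ha.1.2 hb.1.2 (ha.2.trans hb.2.symm)
    have h4 := card_filter_add_card_filter_not (s := X ×ˢ R.powerset) (fun w => zz g w ≠ 0)
    have h5 : 2 ≤ (X ×ˢ R.powerset).card := by
      rw [card_product, card_powerset]
      have : 2 ^ 1 ≤ 2 ^ R.card := Nat.pow_le_pow_right (by norm_num) hr1
      have := card_pos.2 hX
      nlinarith
    constructor
    · have : (X ×ˢ R.powerset).card ≤ 2 * ((X ×ˢ R.powerset).filter fun w => zz g w ≠ 0).card := by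
        omega
      exact_mod_cast this
    · rw [← card_pos]
      omega
  have hcard : ∀ X : Finset ℤ, ((X ×ˢ R.powerset).card : ℝ) = X.card * 2 ^ r := by
    intro X
    rw [card_product, card_powerset]
    push_cast
    rfl
  have hAp : ∀ X : Finset ℤ, X.Nonempty → ∀ p : ℕ, p.Prime → ∀ j : ℕ, 1 ≤ j → m1 ≤ p ^ j →
      ((((X ×ˢ R.powerset).filter fun w => zz g w ≠ 0).filter
        fun a => (p : ℤ) ^ j ∣ (zz g a).num).card : ℝ) ≤
      τ * ((X ×ˢ R.powerset).filter fun w => zz g w ≠ 0).card := by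
    intro X hX p hp j hj1 hj
    have h3 := cnt_prod X R.powerset (fun w => (p : ℤ) ^ j ∣ (zz g w).num)
      (δ := τ / 2 * 2 ^ r) fun x _ => HU g R M K hM hK (by omega) x p hp j hj1 hj
    have h4 := (hO X hX).1
    rw [hcard] at h4
    have h5 : ((((X ×ˢ R.powerset).filter fun w => zz g w ≠ 0).filter
        fun a => (p : ℤ) ^ j ∣ (zz g a).num).card : ℝ) ≤
        ((X ×ˢ R.powerset).filter fun a => (p : ℤ) ^ j ∣ (zz g a).num).card := by
      rw [Nat.cast_le]
      exact card_le_card (filter_subset_filter _ (filter_subset _ _))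
    have h6 : (X.card : ℝ) * (τ / 2 * 2 ^ r) = τ / 2 * (X.card * 2 ^ r) := by ring
    rw [h6] at h3
    nlinarith
  set A := (X1 ×ˢ R.powerset).filter fun w => zz g w ≠ 0 with hA
  set B := (X2 ×ˢ R.powerset).filter fun w => zz g w ≠ 0 with hB
  have hAn := (hO X1 hX1).2
  have hBn := (hO X2 hX2).2
  have hA2 := (hO X1 hX1).1
  have hB2 := (hO X2 hX2).1
  rw [← hA] at hAn hA2
  rw [← hB] at hBn hB2
  rw [hcard] at hA2 hB2
  have hAR : ∀ a ∈ A, a.2 ⊆ R ∧ zz g a ≠ 0 := by
    intro a ha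
    rw [hA, mem_filter, mem_product, mem_powerset] at ha
    exact ⟨ha.1.2, ha.2⟩
  have hBR : ∀ a ∈ B, a.2 ⊆ R ∧ zz g a ≠ 0 := by
    intro a ha
    rw [hB, mem_filter, mem_product, mem_powerset] at ha
    exact ⟨ha.1.2, ha.2⟩
  have hA0 : (0 : ℝ) < A.card := by exact_mod_cast card_pos.2 hAn
  have hB0 : (0 : ℝ) < B.card := by exact_mod_cast card_pos.2 hBn
  have hL := L_bound h2 hg hR A B hAn hBn hAR hBR ht0.le ht1 m1
    (fun p hp j hj1 hj => (hAp X1 hX1 p hp j hj1 hj).trans
      (mul_le_mul_of_nonneg_right hτ2 hA0.le))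
    (fun p hp j hj1 hj => (hAp X2 hX2 p hp j hj1 hj).trans
      (mul_le_mul_of_nonneg_right hτ2 hB0.le))
  have hq := quad R g h2 hg hR X1 X2 (((A ×ˢ B) ×ˢ (A ×ˢ B)).filter fun s =>
      (zz g s.1.1).num = (zz g s.2.1).num ∧ (zz g s.1.2).num = (zz g s.2.2).num ∧
      (zz g s.1.1).den * (zz g s.1.2).den = (zz g s.2.1).den * (zz g s.2.2).den) (by
    intro s hs
    rw [mem_filter, mem_product, mem_product, mem_product] at hs
    exact ⟨(mem_filter.1 hs.1.1.1).1, (mem_filter.1 hs.1.1.2).1, (mem_filter.1 hs.1.2.1).1,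
      (mem_filter.1 hs.1.2.2).1, hs.2⟩)
  have hasm := assemble hQ A B hAn hBn (zz g) (zz g) (fun a ha => (hAR a ha).2)
    (fun a ha => (hBR a ha).2) hτ0.le hθ hθ1 (by rw [hκ1]; linarith) (by
      intro p hp
      refine le_trans ?_ (hAp X1 hX1 p hp (Q.factorization p + 1) (by omega) (by
        have := Pool.Agent.Helper96.Shf.level (m := m1) one_ne_zero hp
        rwa [Nat.factorization_one, Finsupp.coe_zero, Pi.zero_apply, pow_zero, mul_one] at this))
      rw [Nat.cast_le]
      refine card_le_card fun a ha => ?_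
      rw [mem_filter] at ha ⊢
      exact ⟨ha.1, pow_dvd_of_lt hp ha.2⟩)
    (E := 12 * (2 * r + 1) * (r + 1)) (by positivity) (by
      refine le_trans (Nat.cast_le.2 hq) ?_
      push_cast
      have h7 : ((X1.card : ℝ) * 2 ^ r) * (X2.card * 2 ^ r) ≤ (2 * A.card) * (2 * B.card) :=
        mul_le_mul hA2 hB2 (by positivity) (by positivity)
      have h8 : (0 : ℝ) ≤ 3 * (2 * r + 1) * (r + 1) := by positivity
      have h9 := mul_le_mul_of_nonneg_left h7 h8
      rw [← hr]
      linarith) hL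
  set Z := ((X1 ×ˢ R.powerset).image (zz g) * (X2 ×ˢ R.powerset).image (zz g)) with hZ
  have hZc : (((A ×ˢ B).image fun s => zz g s.1 * zz g s.2).card : ℝ) ≤ Z.card := by
    rw [Nat.cast_le]
    refine card_le_card fun x hx => ?_
    rw [mem_image] at hx
    obtain ⟨s, hs, rfl⟩ := hx
    rw [mem_product] at hs
    exact mul_mem_mul (mem_image_of_mem _ (mem_filter.1 hs.1).1)
      (mem_image_of_mem _ (mem_filter.1 hs.2).1)
  have hIc : (0 : ℝ) < ((A ×ˢ B).image fun s => zz g s.1 * zz g s.2).card := by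
    exact_mod_cast card_pos.2 ((hAn.product hBn).image _)
  have hlogZ := Real.log_le_log hIc hZc
  have hZ0 : (0 : ℝ) < Z.card := lt_of_lt_of_le hIc hZc
  have hX1c : (1 : ℝ) ≤ X1.card := by exact_mod_cast card_pos.2 hX1
  have hX2c : (1 : ℝ) ≤ X2.card := by exact_mod_cast card_pos.2 hX2
  have h2r : (1 : ℝ) ≤ 2 ^ r := one_le_pow₀ (by norm_num)
  set ω1 := Real.log ((X1.card : ℝ) * 2 ^ r) with hω1
  set ω2 := Real.log ((X2.card : ℝ) * 2 ^ r) with hω2
  have hLA : ω1 - Real.log 2 ≤ Real.log A.card := by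
    have := Real.log_le_log (by positivity) hA2
    rw [Real.log_mul (by norm_num) hA0.ne'] at this
    linarith
  have hLB : ω2 - Real.log 2 ≤ Real.log B.card := by
    have := Real.log_le_log (by positivity) hB2
    rw [Real.log_mul (by norm_num) hB0.ne'] at this
    linarith
  have hrω : r * Real.log 2 ≤ ω1 := by
    rw [hω1, ← Real.log_pow]
    exact Real.log_le_log (by positivity) (by nlinarith)
  have hω2' : 0 ≤ ω2 := Real.log_nonneg (by nlinarith)
  have hr0 : (0 : ℝ) ≤ r * Real.log 2 := by positivity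
  have hE := hC' r
  have hκA : (1 - 4 / Real.log (1 / θ) - τ / θ) * (Real.log A.card + Real.log B.card) ≥
      (1 - ε / 4) * (ω1 + ω2) - 2 * Real.log 2 := by
    have h5 : 1 - ε / 4 ≤ 1 - 4 / Real.log (1 / θ) - τ / θ := by
      rw [hκ1]
      linarith
    have h6 : 0 ≤ Real.log A.card + Real.log B.card :=
      add_nonneg (Real.log_nonneg (by exact_mod_cast card_pos.2 hAn))
        (Real.log_nonneg (by exact_mod_cast card_pos.2 hBn))
    have h7 := mul_le_mul_of_nonneg_right h5 h6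
    have h8 : (1 - ε / 4) * (ω1 + ω2 - 2 * Real.log 2) ≤
        (1 - ε / 4) * (Real.log A.card + Real.log B.card) :=
      mul_le_mul_of_nonneg_left (by linarith) (by linarith)
    nlinarith
  have h3t : (r : ℝ) * (3 * t) ≤ ε / 8 * (r * Real.log 2) := by
    rw [htd]
    have : (0 : ℝ) ≤ r * ε := by positivity
    nlinarith
  have hfin : (1 - ε) * (ω1 + ω2) - C ≤ Real.log Z.card := by
    have h10 : ε * (r * Real.log 2) ≤ ε * (ω1 + ω2) :=
      mul_le_mul_of_nonneg_left (by linarith) hε.le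
    have h11 : 0 ≤ ε * (ω1 + ω2) := mul_nonneg hε.le (by linarith)
    rw [hC]
    rw [ge_iff_le] at hκA
    linarith
  have hpos : 0 < ((X1.card : ℝ) * 2 ^ r) * (X2.card * 2 ^ r) := by positivity
  rw [Real.rpow_def_of_pos hpos, ← Real.exp_add, Real.log_mul (by positivity) (by positivity),
    ← Real.exp_log hZ0]
  refine Real.exp_le_exp.2 ?_
  rw [← hω1, ← hω2]
  linarith

end Pool.Agent.Helper96.Rat
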