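import Pool.Agent.Helper96.Rat.Asm

/-!
# Entropies of rare events
-/

set_option autoImplicit false

namespace Pool.Agent.Helper96.Rat

open Finset Pool.Agent.Y359.PE Q137.Shifts
open scoped Classical

variable {α β γ δ ι : Type*}

/-- the entropy of a rare event -/
lemma h_bin (S : Finset α) (hS : S.Nonempty) (f : α → ℤ) (hf : ∀ x ∈ S, f x = 0 ∨ f x = 1)
    {t : ℝ} (ht : 0 ≤ t) (ht1 : t ≤ 1)
    (hc : ((S.filter fun x => f x ≠ 0).card : ℝ) ≤ t ^ 2 * S.card) : h S f ≤ 3 * t := by
  have hN : (0 : ℝ) < S.card := by exact_mod_cast card_pos.2 hS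
  set N1 := (S.filter fun x => f x ≠ 0).card with hN1
  set N0 := (S.filter fun x => ¬ f x ≠ 0).card with hN0
  have hsum : N1 + N0 = S.card := card_filter_add_card_filter_not _
  have hsumR : (N1 : ℝ) + N0 = S.card := by exact_mod_cast hsum
  unfold h
  rw [div_le_iff₀ hN, ← sum_filter_add_sum_filter_not S (fun x => f x ≠ 0)]
  have e1 : ∑ x ∈ S.filter (fun x => f x ≠ 0), (Real.log S.card - Real.log (fc S f x)) =
      N1 * (Real.log S.card - Real.log N1) := by
    rw [sum_congr rfl (g := fun _ => Real.log S.card - Real.log N1), sum_const, nsmul_eq_mul]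
    intro x hx
    have hx' := mem_filter.1 hx
    have h1 : f x = 1 := (hf x hx'.1).resolve_left hx'.2
    congr 3
    unfold fc
    rw [hN1]
    congr 1
    ext y
    rw [mem_cl, mem_filter, h1]
    refine and_congr_right fun hy => ?_
    rcases hf y hy with h | h <;> simp [h]
  have e2 : ∑ x ∈ S.filter (fun x => ¬ f x ≠ 0), (Real.log S.card - Real.log (fc S f x)) =
      N0 * (Real.log S.card - Real.log N0) := by
    rw [sum_congr rfl (g := fun _ => Real.log S.card - Real.log N0), sum_const, nsmul_eq_mul]
    intro x hx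
    have hx' := mem_filter.1 hx
    have h1 : f x = 0 := not_not.1 hx'.2
    congr 3
    unfold fc
    rw [hN0]
    congr 1
    ext y
    rw [mem_cl, mem_filter, h1]
    simp
  rw [e1, e2]
  have k2 : (N0 : ℝ) * (Real.log S.card - Real.log N0) ≤ N1 := by
    rcases Nat.eq_zero_or_pos N0 with h0 | h0
    · rw [h0]
      simp
    · have h0' : (0 : ℝ) < N0 := by exact_mod_cast h0
      have h3 := Real.log_le_sub_one_of_pos (div_pos hN h0')
      rw [Real.log_div hN.ne' h0'.ne'] at h3
      have h4 := mul_le_mul_of_nonneg_left h3 h0'.le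
      have h5 : (N0 : ℝ) * (S.card / N0 - 1) = N1 := by
        field_simp
        linarith
      linarith
  have k1 : (N1 : ℝ) * (Real.log S.card - Real.log N1) ≤ 2 * (t * S.card) := by
    rcases Nat.eq_zero_or_pos N1 with h0 | h0
    · rw [h0]
      simp only [Nat.cast_zero, zero_mul]
      positivity
    · have h0' : (0 : ℝ) < N1 := by exact_mod_cast h0
      have h3 := Real.log_le_sub_one_of_pos (Real.sqrt_pos.2 (div_pos hN h0'))
      rw [Real.log_sqrt (div_pos hN h0').le, Real.log_div hN.ne' h0'.ne'] at h3
      have h4 : (N1 : ℝ) * Real.sqrt (S.card / N1) ≤ t * S.card := by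
        have h5 : (N1 : ℝ) * Real.sqrt (S.card / N1) = Real.sqrt (N1 * S.card) := by
          rw [← Real.sqrt_sq h0'.le, ← Real.sqrt_mul (by positivity), Real.sqrt_sq h0'.le]
          congr 1
          field_simp
        rw [h5]
        refine Real.sqrt_le_iff.2 ⟨by positivity, ?_⟩
        nlinarith
      have h6 : (N1 : ℝ) * (Real.log S.card - Real.log N1) ≤
          2 * (N1 * Real.sqrt (S.card / N1)) := by
        have h7 : Real.log S.card - Real.log N1 ≤ 2 * Real.sqrt (S.card / N1) := by linarith
        nlinarith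
      linarith
  have k3 : (N1 : ℝ) ≤ t * S.card := by
    refine hc.trans ?_
    have : t ^ 2 ≤ t := by nlinarith
    exact mul_le_mul_of_nonneg_right this hN.le
  linarith

/-- the entropy of a function with values `0` and `1` -/
lemma h_bit (S : Finset α) (hS : S.Nonempty) (f : α → ℤ) (hf : ∀ x ∈ S, f x = 0 ∨ f x = 1) :
    h S f ≤ Real.log 2 := by
  have := h_le_card hS f ({0, 1} : Finset ℤ) (by
    intro x hx
    rw [mem_insert, mem_singleton]
    exact hf x hx)
  simpa using this

/-- subadditivity -/
lemma h_mk_le (S : Finset α) (J : Finset ι) (X : α → ι → ℤ) :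
    h S (mk J X) ≤ ∑ p ∈ J, h S (fun a => X a p) := by
  induction J using Finset.induction_on with
  | empty =>
    rw [sum_empty]
    refine (h_const S _ fun x _ y _ => ?_).le
    rw [mk_eq_iff]
    intro p hp
    exact absurd hp (notMem_empty _)
  | insert p J hp ih =>
    rw [sum_insert hp, h_mk_insert]
    have := h_pair_le S (mk J X) (fun a => X a p)
    linarith

end Pool.Agent.Helper96.Rat
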