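import Pool.Agent.Helper96.Rat.Up

/-!
# The number of pairs of disjoint sets whose products are congruent
-/

set_option autoImplicit false

namespace Pool.Agent.Helper96.Rat

open Finset

/-- the pairs of disjoint subsets -/
def dp (V : Finset ℕ) : Finset (Finset ℕ × Finset ℕ) :=
  (V.powerset ×ˢ V.powerset).filter fun K => Disjoint K.1 K.2

lemma mem_dp {V : Finset ℕ} {K : Finset ℕ × Finset ℕ} :
    K ∈ dp V ↔ K.1 ⊆ V ∧ K.2 ⊆ V ∧ Disjoint K.1 K.2 := by
  unfold dp
  rw [mem_filter, mem_product, mem_powerset, mem_powerset, and_assoc]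

lemma card_dp (V : Finset ℕ) : (dp V).card ≤ 3 ^ V.card := by
  have h1 : (dp V).card ≤ (V.powerset.sigma fun K => (V \ K).powerset).card := by
    refine card_le_card_of_injOn (fun K => ⟨K.1, K.2⟩) ?_ ?_
    · intro K hK
      have h := mem_dp.1 (mem_coe.1 hK)
      rw [mem_coe, mem_sigma, mem_powerset, mem_powerset]
      refine ⟨h.1, fun x hx => ?_⟩
      rw [mem_sdiff]
      exact ⟨h.2.1 hx, fun h' => (disjoint_left.1 h.2.2 h') hx⟩
    · rintro ⟨a, b⟩ _ ⟨c, d⟩ _ h
      simp only [Sigma.mk.injEq, heq_eq_eq] at h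
      rw [Prod.mk.injEq]
      exact h
  refine h1.trans ?_
  rw [card_sigma]
  have h2 := Finset.sum_pow_mul_eq_add_pow (1 : ℕ) 2 V
  rw [show (1 : ℕ) + 2 = 3 from rfl] at h2
  rw [← h2]
  refine sum_le_sum fun K hK => ?_
  rw [card_powerset, card_sdiff_of_subset (mem_powerset.1 hK), one_pow, one_mul]

/-- products of subsets of a set of pairwise coprime numbers `≥ 2` determine the subsets -/
lemma prod_inj {S : Finset ℕ} (h2 : ∀ i ∈ S, 2 ≤ i) (hS : (S : Set ℕ).Pairwise Nat.Coprime)
    {K L : Finset ℕ} (hK : K ⊆ S) (hL : L ⊆ S) (h : ∏ i ∈ K, i = ∏ i ∈ L, i) : K = L := by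
  have key : ∀ {K L : Finset ℕ}, K ⊆ S → L ⊆ S → ∏ i ∈ K, i = ∏ i ∈ L, i → K ⊆ L := by
    intro K L hK hL h x hx
    by_contra hxL
    have h1 : x ∣ ∏ i ∈ L, i := h ▸ dvd_prod_of_mem _ hx
    have h3 : Nat.Coprime x (∏ i ∈ L, i) := by
      refine Nat.Coprime.prod_right fun i hi => hS (hK hx) (hL hi) ?_
      rintro rfl
      exact hxL hi
    have h4 := Nat.Coprime.eq_one_of_dvd h3 h1
    have := h2 x (hK hx)
    omega
  exact Subset.antisymm (key hK hL h) (key hL hK h.symm)

/-- two quotients with the same integral logarithm and a congruence -/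
lemma two_sol {a b a' b' P m w : ℕ} (ha : 0 < a) (hb : 0 < b) (ha' : 0 < a') (hb' : 0 < b')
    (hw : 1 < w) (h1 : a * b ≤ P) (h2 : a' * b' ≤ P) (hP : P * w ≤ m)
    (hc : Nat.Coprime a b) (hc' : Nat.Coprime a' b') (hmod : (m : ℤ) ∣ (a : ℤ) * b' - a' * b)
    (hlog : Int.log w ((a : ℚ) / b) = Int.log w ((a' : ℚ) / b')) : a = a' ∧ b = b' := by
  have key : ∀ {a b a' b' : ℕ}, 0 < a → 0 < b → 0 < a' → 0 < b' → a * b ≤ P → a' * b' ≤ P →
      Int.log w ((a : ℚ) / b) = Int.log w ((a' : ℚ) / b') → a * b' < m := by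
    intro a b a' b' ha hb ha' hb' h1 h2 hlog
    have qa : (0 : ℚ) < a := by exact_mod_cast ha
    have qb : (0 : ℚ) < b := by exact_mod_cast hb
    have qa' : (0 : ℚ) < a' := by exact_mod_cast ha'
    have qb' : (0 : ℚ) < b' := by exact_mod_cast hb'
    have qw : (0 : ℚ) < w := by exact_mod_cast (by omega : 0 < w)
    have k1 := Int.lt_zpow_succ_log_self hw ((a : ℚ) / b)
    have k2 := Int.zpow_log_le_self hw (div_pos qa' qb')
    rw [hlog, zpow_add_one₀ qw.ne'] at k1
    have k3 : (a : ℚ) / b < (a' : ℚ) / b' * w :=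
      lt_of_lt_of_le k1 (mul_le_mul_of_nonneg_right k2 qw.le)
    rw [div_lt_iff₀ qb, div_mul_eq_mul_div, div_mul_eq_mul_div, lt_div_iff₀ qb'] at k3
    have k4 : a * b' < a' * w * b := by exact_mod_cast k3
    have hP0 : 0 < P := lt_of_lt_of_le (Nat.mul_pos ha hb) h1
    have k5 : (a * b') * (a * b') < m * m := by
      calc (a * b') * (a * b') < (a' * w * b) * (a * b') :=
            Nat.mul_lt_mul_of_pos_right k4 (Nat.mul_pos ha hb')
        _ = w * ((a * b) * (a' * b')) := by ring
        _ ≤ w * (P * P) := Nat.mul_le_mul_left _ (Nat.mul_le_mul h1 h2)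
        _ ≤ (w * P) * (w * P) := by nlinarith [Nat.mul_pos hP0 hP0]
        _ ≤ m * m := by
          rw [mul_comm w P]
          exact Nat.mul_le_mul hP hP
    by_contra hcon
    have := Nat.mul_le_mul (not_lt.1 hcon) (not_lt.1 hcon)
    omega
  have e1 := key ha hb ha' hb' h1 h2 hlog
  have e2 := key ha' hb' ha hb h2 h1 hlog.symm
  have e3 : a * b' = a' * b := by
    have h5 : ((a * b' : ℕ) : ℤ) ≡ ((a' * b : ℕ) : ℤ) [ZMOD m] := by
      rw [Int.modEq_comm]
      refine (Int.modEq_iff_dvd).2 ?_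
      push_cast
      exact hmod
    have h6 := (Int.natCast_modEq_iff).1 h5
    exact Nat.ModEq.eq_of_lt_of_lt h6 e1 e2
  have h7 : a ∣ a' := by
    have : a ∣ a' * b := ⟨b', e3.symm⟩
    exact hc.dvd_of_dvd_mul_right this
  have h8 : a' ∣ a := by
    have : a' ∣ a * b' := ⟨b, e3⟩
    exact hc'.dvd_of_dvd_mul_right this
  have h9 : a = a' := Nat.dvd_antisymm h7 h8
  subst h9
  exact ⟨rfl, (Nat.eq_of_mul_eq_mul_left ha e3).symm⟩

/-- the number of pairs of disjoint subsets whose products are congruent modulo `m` -/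
lemma count (S : Finset ℕ) (h2 : ∀ i ∈ S, 2 ≤ i) (hS : (S : Set ℕ).Pairwise Nat.Coprime) (m : ℕ)
    (hm : ∀ i ∈ S, Nat.Coprime i m) (S' : Finset ℕ) (hS' : S' ⊆ S) (hp : ∏ i ∈ S', i ≤ m) :
    ((dp S).filter fun K => (m : ℤ) ∣ ((∏ i ∈ K.1, i : ℕ) : ℤ) - ((∏ i ∈ K.2, i : ℕ) : ℤ)).card ≤
      3 * (2 * S.card + 1) * 3 ^ (S.card - S'.card) := by
  have hSc := card_le_card hS'
  rcases S'.eq_empty_or_nonempty with h0 | hne
  · subst h0
    rw [card_empty, Nat.sub_zero]
    refine (card_le_card (filter_subset _ _)).trans ((card_dp S).trans ?_)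
    exact Nat.le_mul_of_pos_left _ (by positivity)
  · set w := S'.max' hne with hw
    have hwS' : w ∈ S' := max'_mem _ _
    have hw2 : 2 ≤ w := h2 w (hS' hwS')
    set S2 := S'.erase w with hS2
    have hS2c : S2.card + 1 = S'.card := by
      rw [hS2, card_erase_of_mem hwS']
      have := card_pos.2 hne
      omega
    have hS2S : S2 ⊆ S := (erase_subset _ _).trans hS'
    set V := S \ S2 with hV
    have hVc : V.card = S.card - S'.card + 1 := by
      rw [hV, card_sdiff_of_subset hS2S]
      omega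
    set P := ∏ i ∈ S2, i with hPd
    have hPw : P * w ≤ m := by
      rw [hPd, hS2, prod_erase_mul S' (fun i => i) hwS']
      exact hp
    have hpos : ∀ K : Finset ℕ, K ⊆ S → 0 < ∏ i ∈ K, i := fun K hK =>
      prod_pos fun i hi => by have := h2 i (hK hi); omega
    have hsplit : ∀ K : Finset ℕ, K ⊆ S → (∏ i ∈ K ∩ V, i) * (∏ i ∈ K ∩ S2, i) = ∏ i ∈ K, i := by
      intro K hK
      rw [← prod_union]
      · congr 1
        ext x
        rw [mem_union, mem_inter, mem_inter, hV, mem_sdiff]
        constructor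
        · rintro (h | h) <;> exact h.1
        · intro h
          by_cases hx : x ∈ S2
          · exact Or.inr ⟨h, hx⟩
          · exact Or.inl ⟨h, hK h, hx⟩
      · rw [disjoint_left]
        intro x hx hx'
        rw [mem_inter, hV, mem_sdiff] at hx
        rw [mem_inter] at hx'
        exact hx.2.2 hx'.2
    have hle : ∀ K : Finset ℕ, K ⊆ S2 → ∏ i ∈ K, i ≤ w ^ S2.card := by
      intro K hK
      have h1 : ∏ i ∈ K, i ≤ w ^ K.card := by
        refine prod_le_pow_card _ _ _ fun i hi => ?_
        exact le_max' _ _ (mem_of_mem_erase (hK hi))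
      exact h1.trans (Nat.pow_le_pow_right (by omega) (card_le_card hK))
    have hcard : ((dp S).filter fun K =>
        (m : ℤ) ∣ ((∏ i ∈ K.1, i : ℕ) : ℤ) - ((∏ i ∈ K.2, i : ℕ) : ℤ)).card ≤
        (dp V ×ˢ Icc (-(S2.card : ℤ)) S2.card).card := by
      refine card_le_card_of_injOn (fun K => ((K.1 ∩ V, K.2 ∩ V),
        Int.log w (((∏ i ∈ K.1 ∩ S2, i : ℕ) : ℚ) / ((∏ i ∈ K.2 ∩ S2, i : ℕ) : ℚ)))) ?_ ?_
      · intro K hK
        have hK' := mem_dp.1 (mem_filter.1 (mem_coe.1 hK)).1
        rw [mem_coe, mem_product]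
        constructor
        · refine mem_dp.2 ⟨inter_subset_right, inter_subset_right, ?_⟩
          exact hK'.2.2.mono inter_subset_left inter_subset_left
        · have a1 := hle (K.1 ∩ S2) inter_subset_right
          have a2 := hle (K.2 ∩ S2) inter_subset_right
          have b1 := hpos (K.1 ∩ S2) (inter_subset_left.trans hK'.1)
          have b2 := hpos (K.2 ∩ S2) (inter_subset_left.trans hK'.2.1)
          set a := ∏ i ∈ K.1 ∩ S2, i
          set b := ∏ i ∈ K.2 ∩ S2, i
          have qa : (0 : ℚ) < a := by exact_mod_cast b1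
          have qb : (0 : ℚ) < b := by exact_mod_cast b2
          have q1 : (1 : ℚ) ≤ a := by exact_mod_cast b1
          have q2 : (1 : ℚ) ≤ b := by exact_mod_cast b2
          have c1 : (a : ℚ) ≤ (w : ℚ) ^ (S2.card : ℤ) := by
            rw [zpow_natCast]
            exact_mod_cast a1
          have c2 : (b : ℚ) ≤ (w : ℚ) ^ (S2.card : ℤ) := by
            rw [zpow_natCast]
            exact_mod_cast a2
          have qw : (0 : ℚ) < (w : ℚ) ^ (S2.card : ℤ) := zpow_pos (by exact_mod_cast (by omega : 0 < w)) _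
          rw [mem_Icc]
          constructor
          · have h1 : (w : ℚ) ^ (-(S2.card : ℤ)) ≤ (a : ℚ) / b := by
              rw [zpow_neg, ← one_div, div_le_div_iff₀ qw qb, one_mul]
              nlinarith
            have h3 := Int.log_mono_right (b := w) (zpow_pos (by exact_mod_cast (by omega : 0 < w)) _) h1
            rwa [Int.log_zpow (by omega)] at h3
          · have h1 : (a : ℚ) / b ≤ (w : ℚ) ^ (S2.card : ℤ) := by
              rw [div_le_iff₀ qb]
              nlinarith
            have h3 := Int.log_mono_right (b := w) (div_pos qa qb) h1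
            rwa [Int.log_zpow (by omega)] at h3
      · intro K hK L hL hKL
        have hK1 := mem_filter.1 (mem_coe.1 hK)
        have hL1 := mem_filter.1 (mem_coe.1 hL)
        obtain ⟨k1, k2, k3⟩ := mem_dp.1 hK1.1
        obtain ⟨l1, l2, l3⟩ := mem_dp.1 hL1.1
        simp only [Prod.mk.injEq] at hKL
        obtain ⟨⟨e1, e2⟩, e3⟩ := hKL
        have hKm := hK1.2
        have hLm := hL1.2
        rw [← hsplit K.1 k1, ← hsplit K.2 k2] at hKm
        rw [← hsplit L.1 l1, ← hsplit L.2 l2, ← e1, ← e2] at hLm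
        have hcop : ∀ A : Finset ℕ, A ⊆ S → Nat.Coprime (∏ i ∈ A, i) m := fun A hA =>
          Nat.Coprime.prod_left fun i hi => hm i (hA hi)
        have c1 := hcop (K.1 ∩ V) (inter_subset_left.trans k1)
        have c2 := hcop (K.2 ∩ V) (inter_subset_left.trans k2)
        have hmul : ∀ A B : Finset ℕ, A ⊆ S2 → B ⊆ S2 → Disjoint A B →
            (∏ i ∈ A, i) * (∏ i ∈ B, i) ≤ P := by
          intro A B hA hB hAB
          rw [← prod_union hAB]
          refine prod_le_prod_of_subset_of_one_le' (union_subset hA hB) fun i hi _ => ?_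
          have := h2 i (hS2S hi)
          omega
        have hcc : ∀ A B : Finset ℕ, A ⊆ S → B ⊆ S → Disjoint A B →
            Nat.Coprime (∏ i ∈ A, i) (∏ i ∈ B, i) := by
          intro A B hA hB hAB
          refine Nat.Coprime.prod_left fun i hi => Nat.Coprime.prod_right fun j hj => ?_
          refine hS (hA hi) (hB hj) ?_
          rintro rfl
          exact disjoint_left.1 hAB hi hj
        have d1 : Disjoint (K.1 ∩ S2) (K.2 ∩ S2) := k3.mono inter_subset_left inter_subset_left
        have d2 : Disjoint (L.1 ∩ S2) (L.2 ∩ S2) := l3.mono inter_subset_left inter_subset_left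
        have hres := two_sol (hpos _ (inter_subset_left.trans k1)) (hpos _ (inter_subset_left.trans k2))
          (hpos _ (inter_subset_left.trans l1)) (hpos _ (inter_subset_left.trans l2)) hw2
          (hmul _ _ inter_subset_right inter_subset_right d1)
          (hmul _ _ inter_subset_right inter_subset_right d2) hPw
          (hcc _ _ (inter_subset_left.trans k1) (inter_subset_left.trans k2) d1)
          (hcc _ _ (inter_subset_left.trans l1) (inter_subset_left.trans l2) d2) (by
            set a0 := ∏ i ∈ K.1 ∩ V, i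
            set b0 := ∏ i ∈ K.2 ∩ V, i
            set a := ∏ i ∈ K.1 ∩ S2, i
            set b := ∏ i ∈ K.2 ∩ S2, i
            set a' := ∏ i ∈ L.1 ∩ S2, i
            set b' := ∏ i ∈ L.2 ∩ S2, i
            have g1 : (m : ℤ) ∣ (a0 * b0 : ℕ) * ((a : ℤ) * b' - a' * b) := by
              obtain ⟨u, hu⟩ := hKm
              obtain ⟨v, hv⟩ := hLm
              refine ⟨u * b0 * b' - b0 * b * v, ?_⟩
              push_cast at hu hv ⊢
              linear_combination (b0 * b' : ℤ) * hu - (b0 * b : ℤ) * hv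
            have g2 : IsCoprime (m : ℤ) ((a0 * b0 : ℕ) : ℤ) :=
              Nat.isCoprime_iff_coprime.2 (Nat.Coprime.mul_left c1 c2).symm
            exact g2.dvd_of_dvd_mul_left g1) e3
        have f1 := prod_inj h2 hS (inter_subset_left.trans k1) (inter_subset_left.trans l1) hres.1
        have f2 := prod_inj h2 hS (inter_subset_left.trans k2) (inter_subset_left.trans l2) hres.2
        have join : ∀ A B : Finset ℕ, A ⊆ S → B ⊆ S → A ∩ V = B ∩ V → A ∩ S2 = B ∩ S2 → A = B := by
          have key : ∀ A B : Finset ℕ, A ⊆ S → A ∩ V = B ∩ V → A ∩ S2 = B ∩ S2 → A ⊆ B := by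
            intro A B hA hAV hAS x hx
            by_cases hx2 : x ∈ S2
            · have : x ∈ A ∩ S2 := mem_inter.2 ⟨hx, hx2⟩
              rw [hAS] at this
              exact (mem_inter.1 this).1
            · have : x ∈ A ∩ V := mem_inter.2 ⟨hx, mem_sdiff.2 ⟨hA hx, hx2⟩⟩
              rw [hAV] at this
              exact (mem_inter.1 this).1
          intro A B hA hB h1 h3
          exact Subset.antisymm (key A B hA h1 h3) (key B A hB h1.symm h3.symm)
        exact Prod.ext (join _ _ k1 l1 e1 f1) (join _ _ k2 l2 e2 f2)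
    refine hcard.trans ?_
    rw [card_product, Int.card_Icc]
    have h3 : ((S2.card : ℤ) + 1 - -(S2.card : ℤ)).toNat = 2 * S2.card + 1 := by omega
    rw [h3]
    have h4 := card_dp V
    rw [hVc, pow_succ] at h4
    calc (dp V).card * (2 * S2.card + 1) ≤ (3 ^ (S.card - S'.card) * 3) * (2 * S.card + 1) :=
          Nat.mul_le_mul h4 (by omega)
      _ = _ := by ring

end Pool.Agent.Helper96.Rat
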