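import Pool.Agent.Helper96.Rat.Big

/-!
# Cubes with rational steps
-/

set_option autoImplicit false

namespace Pool.Agent.Helper96.Rat

open Finset
open scoped Classical Pointwise

/-- the cube `A + {0, h 1} + … + {0, h n}` -/
noncomputable def cube {n : ℕ} (A : Finset ℤ) (h : Fin n → ℚ) : Finset ℚ :=
  (A ×ˢ (univ : Finset (Finset (Fin n)))).image fun s => (s.1 : ℚ) + ∑ i ∈ s.2, h i

lemma mem_cube {n : ℕ} {A : Finset ℤ} {h : Fin n → ℚ} {z : ℚ} :
    z ∈ cube A h ↔ ∃ a ∈ A, ∃ I : Finset (Fin n), (a : ℚ) + ∑ i ∈ I, h i = z := by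
  unfold cube
  rw [mem_image]
  constructor
  · rintro ⟨s, hs, rfl⟩
    exact ⟨s.1, (mem_product.1 hs).1, s.2, rfl⟩
  · rintro ⟨a, ha, I, rfl⟩
    exact ⟨(a, I), mem_product.2 ⟨ha, mem_univ _⟩, rfl⟩

/-- the integral part of the cube -/
noncomputable def ipt {n : ℕ} (A : Finset ℤ) (h : Fin n → ℚ) (F : Finset (Fin n)) : Finset ℤ :=
  (A ×ˢ F.powerset).image fun s => s.1 + ∑ i ∈ s.2, (h i).num

lemma mem_ipt {n : ℕ} {A : Finset ℤ} {h : Fin n → ℚ} {F : Finset (Fin n)} {x : ℤ} :
    x ∈ ipt A h F ↔ ∃ a ∈ A, ∃ I ⊆ F, a + ∑ i ∈ I, (h i).num = x := by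
  unfold ipt
  rw [mem_image]
  constructor
  · rintro ⟨s, hs, rfl⟩
    rw [mem_product, mem_powerset] at hs
    exact ⟨s.1, hs.1, s.2, hs.2, rfl⟩
  · rintro ⟨a, ha, I, hI, rfl⟩
    exact ⟨(a, I), mem_product.2 ⟨ha, mem_powerset.2 hI⟩, rfl⟩

/-- splitting of the cube -/
lemma cube_split {n : ℕ} {A : Finset ℤ} {h : Fin n → ℚ} {F R : Finset (Fin n)}
    (hF : ∀ i ∈ F, (h i).den = 1) (hu : F ∪ R = univ) (hd : Disjoint F R) {z : ℚ} :
    z ∈ cube A h ↔ ∃ x ∈ ipt A h F, ∃ I ⊆ R, (x : ℚ) + ∑ i ∈ I, h i = z := by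
  have hint : ∀ I ⊆ F, ((∑ i ∈ I, (h i).num : ℤ) : ℚ) = ∑ i ∈ I, h i := by
    intro I hI
    push_cast
    refine sum_congr rfl fun i hi => ?_
    have := _root_.Rat.mul_den_eq_num (h i)
    rw [hF i (hI hi)] at this
    push_cast at this
    linarith
  rw [mem_cube]
  constructor
  · rintro ⟨a, ha, I, rfl⟩
    refine ⟨a + ∑ i ∈ I ∩ F, (h i).num, mem_ipt.2 ⟨a, ha, I ∩ F, inter_subset_right, rfl⟩,
      I ∩ R, inter_subset_right, ?_⟩
    have h1 : I = (I ∩ F) ∪ (I ∩ R) := by
      rw [← inter_union_distrib_left, hu, inter_univ]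
    have h2 : Disjoint (I ∩ F) (I ∩ R) := hd.mono inter_subset_right inter_subset_right
    conv_rhs => rw [h1, sum_union h2]
    rw [Int.cast_add, hint _ inter_subset_right]
    ring
  · rintro ⟨x, hx, J, hJ, rfl⟩
    obtain ⟨a, ha, I, hI, rfl⟩ := mem_ipt.1 hx
    refine ⟨a, ha, I ∪ J, ?_⟩
    rw [sum_union (hd.mono hI hJ), Int.cast_add, hint _ hI]
    ring

/-- **Cubes with rational steps.** -/
theorem final (ε : ℝ) (hε : 0 < ε) (hε1 : ε ≤ 1) (K : ℕ) : ∃ n0 : ℕ, ∀ M : ℕ, M ≠ 0 →
    ∃ c : ℝ, 0 < c ∧ ∀ n : ℕ, n0 ≤ n → ∀ h : Fin n → ℚ,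
      (∀ i j, i ≠ j → Nat.Coprime (h i).den (h j).den) →
      (∀ p : ℕ, p.Prime →
        (univ.filter fun i => (p : ℤ) ^ (M.factorization p + 1) ∣ (h i).num).card ≤ K) →
      ∀ A B : Finset ℤ, A.Nonempty → B.Nonempty →
        c * (((cube A h).card : ℝ) * (cube B h).card) ^ (1 - ε) ≤
          ((cube A h * cube B h).card : ℝ) := by
  obtain ⟨n1, H1⟩ := big ε hε hε1
  obtain ⟨m, c1, hc1, H2⟩ := Pool.Agent.Helper96.Shf.cubes ε hε hε1 K
  set r0 := n1 + K with hr0
  refine ⟨r0 + m + K + 1, fun M hM => ?_⟩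
  obtain ⟨c2, hc2, H3⟩ := H1 M hM
  have hMd : (0 : ℝ) < M.divisors.card := by
    have : 0 < M.divisors.card := card_pos.2 ⟨1, Nat.one_mem_divisors.2 hM⟩
    exact_mod_cast this
  refine ⟨min c2 (c1 / ((M.divisors.card : ℝ) ^ 2 * 4 ^ r0)), lt_min hc2 (by positivity), ?_⟩
  intro n hn h hcop hK A B hA hB
  set F : Finset (Fin n) := univ.filter fun i => (h i).den = 1 with hFd
  set R : Finset (Fin n) := univ.filter fun i => ¬ (h i).den = 1 with hRd
  have hFR : F.card + R.card = n := by
    have := card_filter_add_card_filter_not (s := (univ : Finset (Fin n))) (fun i => (h i).den = 1)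
    rwa [card_univ, Fintype.card_fin] at this
  have hF : ∀ i ∈ F, (h i).den = 1 := fun i hi => (mem_filter.1 hi).2
  have hu : F ∪ R = univ := filter_union_filter_not_eq _ _
  have hd : Disjoint F R := disjoint_filter_filter_not _ _ _
  have hne : ∀ X : Finset ℤ, X.Nonempty → (ipt X h F).Nonempty := by
    rintro X ⟨x, hx⟩
    exact ⟨x + ∑ i ∈ ∅, (h i).num, mem_ipt.2 ⟨x, hx, ∅, empty_subset _, rfl⟩⟩
  have hcd : ∀ X : Finset ℤ, (cube X h).card ≤ (ipt X h F).card * 2 ^ R.card := by
    intro X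
    have h1 : cube X h ⊆ (ipt X h F ×ˢ R.powerset).image fun s => (s.1 : ℚ) + ∑ i ∈ s.2, h i := by
      intro z hz
      obtain ⟨x, hx, I, hI, rfl⟩ := (cube_split hF hu hd).1 hz
      exact mem_image.2 ⟨(x, I), mem_product.2 ⟨hx, mem_powerset.2 hI⟩, rfl⟩
    refine (card_le_card h1).trans (card_image_le.trans ?_)
    rw [card_product, card_powerset]
  by_cases hR : r0 ≤ R.card
  · -- many non-integral steps
    set S := R.image fun i => (h i).den with hS
    have hinj : Set.InjOn (fun i => (h i).den) (R : Set (Fin n)) := by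
      intro i hi j hj hij
      by_contra hne
      have h1 := hcop i j hne
      have h2 : (h i).den = (h j).den := hij
      rw [h2, Nat.coprime_self] at h1
      exact (mem_filter.1 (mem_coe.1 hj)).2 h1
    have hSc : S.card = R.card := card_image_of_injOn hinj
    set g : ℕ → ℚ := fun q => ∑ i ∈ R.filter (fun i => (h i).den = q), h i with hg
    have hgi : ∀ i ∈ R, g (h i).den = h i := by
      intro i hi
      rw [hg]
      simp only
      rw [show R.filter (fun j => (h j).den = (h i).den) = {i} from ?_, sum_singleton]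
      ext j
      rw [mem_filter, mem_singleton]
      constructor
      · rintro ⟨hj, hji⟩
        exact hinj hj hi hji
      · rintro rfl
        exact ⟨hi, rfl⟩
    have hS2 : ∀ q ∈ S, 2 ≤ q := by
      intro q hq
      obtain ⟨i, hi, rfl⟩ := mem_image.1 hq
      have h1 := (mem_filter.1 hi).2
      have h2 := (h i).den_pos
      omega
    have hSg : ∀ q ∈ S, (g q).den = q := by
      intro q hq
      obtain ⟨i, hi, rfl⟩ := mem_image.1 hq
      rw [hgi i hi]
    have hScop : (S : Set ℕ).Pairwise Nat.Coprime := by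
      intro q hq q' hq' hne
      obtain ⟨i, hi, rfl⟩ := mem_image.1 (mem_coe.1 hq)
      obtain ⟨j, hj, rfl⟩ := mem_image.1 (mem_coe.1 hq')
      refine hcop i j ?_
      rintro rfl
      exact hne rfl
    have hSK : ∀ p : ℕ, p.Prime →
        (S.filter fun q => (p : ℤ) ^ (M.factorization p + 1) ∣ (g q).num).card ≤ K := by
      intro p hp
      refine le_trans ?_ (hK p hp)
      have h1 : (S.filter fun q => (p : ℤ) ^ (M.factorization p + 1) ∣ (g q).num) ⊆
          (univ.filter fun i => (p : ℤ) ^ (M.factorization p + 1) ∣ (h i).num).image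
            fun i => (h i).den := by
        intro q hq
        rw [mem_filter] at hq
        obtain ⟨i, hi, rfl⟩ := mem_image.1 hq.1
        rw [hgi i hi] at hq
        exact mem_image.2 ⟨i, mem_filter.2 ⟨mem_univ _, hq.2⟩, rfl⟩
      exact (card_le_card h1).trans card_image_le
    have key := H3 K g S hS2 hSg hScop hSK (by rw [hSc]; exact hR) (ipt A h F) (ipt B h F)
      (hne A hA) (hne B hB)
    have hsub : ∀ X : Finset ℤ, (ipt X h F ×ˢ S.powerset).image (zz g) ⊆ cube X h := by
      intro X z hz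
      obtain ⟨⟨x, T⟩, hw, rfl⟩ := mem_image.1 hz
      rw [mem_product, mem_powerset] at hw
      refine (cube_split hF hu hd).2 ⟨x, hw.1, R.filter (fun i => (h i).den ∈ T),
        filter_subset _ _, ?_⟩
      unfold zz
      congr 1
      have h1 : T = (R.filter fun i => (h i).den ∈ T).image fun i => (h i).den := by
        ext q
        rw [mem_image]
        constructor
        · intro hq
          obtain ⟨i, hi, rfl⟩ := mem_image.1 (hw.2 hq)
          exact ⟨i, mem_filter.2 ⟨hi, hq⟩, rfl⟩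
        · rintro ⟨i, hi, rfl⟩
          exact (mem_filter.1 hi).2
      have h2 : ∑ q ∈ T, g q = ∑ i ∈ R.filter (fun i => (h i).den ∈ T), g (h i).den := by
        conv_lhs => rw [h1]
        exact sum_image fun i hi j hj hij =>
          hinj (mem_filter.1 hi).1 (mem_filter.1 hj).1 hij
      show ∑ i ∈ R.filter (fun i => (h i).den ∈ T), h i = ∑ q ∈ T, g q
      rw [h2]
      exact sum_congr rfl fun i hi => (hgi i (mem_filter.1 hi).1).symm
    have hmul : (((ipt A h F ×ˢ S.powerset).image (zz g) *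
        (ipt B h F ×ˢ S.powerset).image (zz g)).card : ℝ) ≤ ((cube A h * cube B h).card : ℝ) := by
      rw [Nat.cast_le]
      refine card_le_card ?_
      convert mul_subset_mul (hsub A) (hsub B)
    have h3 : ((cube A h).card : ℝ) * (cube B h).card ≤
        (((ipt A h F).card : ℝ) * 2 ^ S.card) * ((ipt B h F).card * 2 ^ S.card) := by
      rw [hSc]
      have a1 : ((cube A h).card : ℝ) ≤ (ipt A h F).card * 2 ^ R.card := by exact_mod_cast hcd A
      have a2 : ((cube B h).card : ℝ) ≤ (ipt B h F).card * 2 ^ R.card := by exact_mod_cast hcd B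
      exact mul_le_mul a1 a2 (Nat.cast_nonneg _) (by positivity)
    calc min c2 (c1 / ((M.divisors.card : ℝ) ^ 2 * 4 ^ r0)) *
          (((cube A h).card : ℝ) * (cube B h).card) ^ (1 - ε)
        ≤ c2 * ((((ipt A h F).card : ℝ) * 2 ^ S.card) * ((ipt B h F).card * 2 ^ S.card)) ^
            (1 - ε) := by
          refine mul_le_mul (min_le_left _ _) ?_ (by positivity) hc2.le
          exact Real.rpow_le_rpow (by positivity) h3 (by linarith)
      _ ≤ _ := le_trans (by convert key) hmul
  · -- few non-integral steps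
    have hR' : R.card < r0 := not_le.1 hR
    set n' := F.card with hn'
    have hn'm : m + K + 1 ≤ n' := by omega
    set e := F.equivFin with he
    set u : Fin n' → ℤ := fun i => (h (e.symm i : Fin n)).num with hu'
    have hsum : ∀ I : Finset (Fin n), I ⊆ F →
        ∑ i : Fin n', (if ((e.symm i : F) : Fin n) ∈ I then u i else 0) = ∑ j ∈ I, (h j).num := by
      intro I hI
      have h1 : ∑ i : Fin n', (if ((e.symm i : F) : Fin n) ∈ I then u i else 0) =
          ∑ j : F, (if (j : Fin n) ∈ I then (h (j : Fin n)).num else 0) := by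
        rw [← Equiv.sum_comp e.symm]
      rw [h1, sum_coe_sort F (fun j => if j ∈ I then (h j).num else 0), ← sum_filter]
      congr 1
      ext j
      rw [mem_filter]
      exact ⟨fun h => h.2, fun h => ⟨hI h, h⟩⟩
    have hset : ∀ X : Finset ℤ, X + ∑ i : Fin n', ({0, u i} : Finset ℤ) = ipt X h F := by
      intro X
      ext x
      rw [mem_add, mem_ipt]
      constructor
      · rintro ⟨a, ha, y, hy, rfl⟩
        refine ⟨a, ha, ?_⟩
        have hy' : y ∈ (∑ i : Fin n', (({0, u i} : Finset ℤ) : Set ℤ)) := by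
          rw [← Finset.coe_sum]
          exact_mod_cast hy
        rw [Set.mem_finsetSum] at hy'
        obtain ⟨v, hv, rfl⟩ := hy'
        set I : Finset (Fin n) := F.filter fun j => ∃ i : Fin n', v i ≠ 0 ∧ (e.symm i : Fin n) = j
          with hI
        refine ⟨I, filter_subset _ _, ?_⟩
        rw [← hsum I (filter_subset _ _)]
        congr 1
        refine sum_congr rfl fun i _ => ?_
        have hvi : v i = 0 ∨ v i = u i := by
          have := hv (mem_univ i)
          simpa using this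
        by_cases h0 : v i = 0
        · rw [h0, if_neg]
          intro hmem
          obtain ⟨_, i', hi', hii⟩ := mem_filter.1 hmem
          have : i' = i := e.symm.injective (Subtype.ext hii)
          subst this
          exact hi' h0
        · rw [if_pos, hvi.resolve_left h0]
          exact mem_filter.2 ⟨(e.symm i).2, i, h0, rfl⟩
      · rintro ⟨a, ha, I, hI, rfl⟩
        refine ⟨a, ha, _, ?_, rfl⟩
        rw [← hsum I hI]
        refine Pool.Agent.Helper96.Shf.mem_fsum _ _ _ fun i _ => ?_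
        rw [mem_insert, mem_singleton]
        split_ifs
        · right; rfl
        · left; rfl
    have hKF : ∀ p : ℕ, p.Prime →
        (univ.filter fun i : Fin n' => (p : ℤ) ^ (M.factorization p + 1) ∣ u i).card ≤ K := by
      intro p hp
      refine le_trans ?_ (hK p hp)
      refine card_le_card_of_injOn (fun i => ((e.symm i : F) : Fin n)) ?_ ?_
      · intro i hi
        rw [mem_coe, mem_filter] at hi ⊢
        exact ⟨mem_univ _, hi.2⟩
      · intro i _ j _ hij
        exact e.symm.injective (Subtype.ext hij)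
    have hnz : ∃ b ∈ ipt B h F, b ≠ 0 := by
      have h1 : ∃ j ∈ F, (h j).num ≠ 0 := by
        by_contra hcon
        push Not at hcon
        have h2 : F ⊆ univ.filter fun i => ((2 : ℕ) : ℤ) ^ (M.factorization 2 + 1) ∣ (h i).num := by
          intro j hj
          rw [mem_filter, hcon j hj]
          exact ⟨mem_univ _, dvd_zero _⟩
        have := (card_le_card h2).trans (hK 2 Nat.prime_two)
        omega
      obtain ⟨j, hj, hj0⟩ := h1
      obtain ⟨b, hb⟩ := hB
      by_cases hb0 : b = 0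
      · refine ⟨b + ∑ i ∈ {j}, (h i).num, mem_ipt.2 ⟨b, hb, {j}, singleton_subset_iff.2 hj, rfl⟩, ?_⟩
        rw [sum_singleton, hb0, zero_add]
        exact hj0
      · refine ⟨b + ∑ i ∈ ∅, (h i).num, mem_ipt.2 ⟨b, hb, ∅, empty_subset _, rfl⟩, ?_⟩
        rw [sum_empty, add_zero]
        exact hb0
    have key := H2 n' (by omega) (fun i => {0, u i}) u M hM
      (fun i => ⟨0, mem_insert_self _ _, by rw [zero_add]; exact mem_insert_of_mem (mem_singleton_self _)⟩)
      hKF A hA (ipt B h F) hnz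
    rw [hset A] at key
    have hmul : ((ipt A h F * ipt B h F).card : ℝ) ≤ ((cube A h * cube B h).card : ℝ) := by
      rw [Nat.cast_le]
      have hsub : ∀ X : Finset ℤ, ∀ x ∈ ipt X h F, (x : ℚ) ∈ cube X h := by
        intro X x hx
        refine (cube_split hF hu hd).2 ⟨x, hx, ∅, empty_subset _, ?_⟩
        rw [sum_empty, add_zero]
      refine card_le_card_of_injOn (fun x : ℤ => (x : ℚ)) ?_ (Int.cast_injective.injOn)
      intro x hx
      obtain ⟨a, ha, b, hb, rfl⟩ := mem_mul.1 (mem_coe.1 hx)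
      show ((a * b : ℤ) : ℚ) ∈ cube A h * cube B h
      rw [Int.cast_mul]
      exact mul_mem_mul (hsub A a ha) (hsub B b hb)
    have h3 : ((cube A h).card : ℝ) * (cube B h).card ≤
        4 ^ r0 * (((ipt A h F).card : ℝ) * (ipt B h F).card) := by
      have h2r : (2 : ℝ) ^ R.card ≤ 2 ^ r0 := pow_le_pow_right₀ (by norm_num) hR'.le
      have a1 : ((cube A h).card : ℝ) ≤ (ipt A h F).card * 2 ^ R.card := by exact_mod_cast hcd A
      have a2 : ((cube B h).card : ℝ) ≤ (ipt B h F).card * 2 ^ R.card := by exact_mod_cast hcd B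
      have b1 := a1.trans (mul_le_mul_of_nonneg_left h2r (Nat.cast_nonneg _))
      have b2 := a2.trans (mul_le_mul_of_nonneg_left h2r (Nat.cast_nonneg _))
      refine (mul_le_mul b1 b2 (Nat.cast_nonneg _) (by positivity)).trans (le_of_eq ?_)
      rw [show (4 : ℝ) = 2 * 2 by norm_num, mul_pow]
      ring
    have h4 : (((cube A h).card : ℝ) * (cube B h).card) ^ (1 - ε) ≤
        4 ^ r0 * (((ipt A h F).card : ℝ) * (ipt B h F).card) ^ (1 - ε) := by
      refine (Real.rpow_le_rpow (by positivity) h3 (by linarith)).trans ?_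
      rw [Real.mul_rpow (by positivity) (by positivity)]
      refine mul_le_mul_of_nonneg_right ?_ (by positivity)
      calc ((4 : ℝ) ^ r0) ^ (1 - ε) ≤ ((4 : ℝ) ^ r0) ^ (1 : ℝ) :=
            Real.rpow_le_rpow_of_exponent_le (one_le_pow₀ (by norm_num)) (by linarith)
        _ = _ := Real.rpow_one _
    have h5 : c1 / ((M.divisors.card : ℝ) ^ 2 * 4 ^ r0) *
        (4 ^ r0 * (((ipt A h F).card : ℝ) * (ipt B h F).card) ^ (1 - ε)) ≤
        ((ipt A h F * ipt B h F).card : ℝ) := by
      rw [show c1 / ((M.divisors.card : ℝ) ^ 2 * 4 ^ r0) *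
        (4 ^ r0 * (((ipt A h F).card : ℝ) * (ipt B h F).card) ^ (1 - ε)) =
        (c1 * (((ipt A h F).card : ℝ) * (ipt B h F).card) ^ (1 - ε)) / (M.divisors.card : ℝ) ^ 2 by
          field_simp, div_le_iff₀ (by positivity), mul_comm _ ((M.divisors.card : ℝ) ^ 2)]
      exact key
    refine le_trans ?_ (h5.trans hmul)
    exact mul_le_mul (min_le_right _ _) h4 (by positivity) (by positivity)

end Pool.Agent.Helper96.Rat
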