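import Pool.Agent.Helper96.Rat.Cnt

/-!
# The sum over all pairs of disjoint sets
-/

set_option autoImplicit false

namespace Pool.Agent.Helper96.Rat

open Finset

/-- the elements outside of both sets which divide the difference of the products -/
def jj (R : Finset ℕ) (K : Finset ℕ × Finset ℕ) : Finset ℕ :=
  (R \ (K.1 ∪ K.2)).filter fun i => (i : ℤ) ∣ ((∏ i ∈ K.1, i : ℕ) : ℤ) - ((∏ i ∈ K.2, i : ℕ) : ℤ)

lemma mem_jj {R : Finset ℕ} {K : Finset ℕ × Finset ℕ} {i : ℕ} : i ∈ jj R K ↔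
    i ∈ R ∧ i ∉ K.1 ∧ i ∉ K.2 ∧
      (i : ℤ) ∣ ((∏ i ∈ K.1, i : ℕ) : ℤ) - ((∏ i ∈ K.2, i : ℕ) : ℤ) := by
  unfold jj
  rw [mem_filter, mem_sdiff, mem_union]
  tauto

/-- **The sum over the pairs.** -/
theorem total (R : Finset ℕ) (h2 : ∀ i ∈ R, 2 ≤ i) (hR : (R : Set ℕ).Pairwise Nat.Coprime) :
    ∑ K ∈ dp R, 4 ^ (jj R K).card ≤ 3 * (2 * R.card + 1) * (R.card + 1) * 4 ^ R.card := by
  have s1 : ∑ K ∈ dp R, 4 ^ (jj R K).card =
      ∑ K ∈ dp R, ∑ J ∈ R.powerset, if J ⊆ jj R K then 3 ^ J.card else 0 := by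
    refine sum_congr rfl fun K _ => ?_
    have h := Finset.sum_pow_mul_eq_add_pow (3 : ℕ) 1 (jj R K)
    simp only [one_pow, mul_one] at h
    rw [show (3 : ℕ) + 1 = 4 from rfl] at h
    rw [← h, ← sum_filter]
    congr 1
    ext J
    rw [mem_powerset, mem_filter, mem_powerset]
    refine ⟨fun h => ⟨fun x hx => (mem_jj.1 (h hx)).1, h⟩, fun h => h.2⟩
  rw [s1, sum_comm]
  have s2 : ∀ J ∈ R.powerset, ∑ K ∈ dp R, (if J ⊆ jj R K then 3 ^ J.card else 0) ≤
      3 * (2 * R.card + 1) * ∑ T ∈ ups R, 3 ^ (symmDiff J T).card := by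
    intro J hJ
    have hJR := mem_powerset.1 hJ
    rw [← sum_filter, sum_const, smul_eq_mul]
    obtain ⟨S', hS', T, hT, hc, hm, hk⟩ := matching R J hJR
    have hm1 := hm 1 fun x hx => by have := h2 x hx; omega
    rw [one_pow, mul_one] at hm1
    have hsub : ((dp R).filter fun K => J ⊆ jj R K) ⊆ ((dp (R \ J)).filter fun K =>
        ((∏ i ∈ J, i : ℕ) : ℤ) ∣ ((∏ i ∈ K.1, i : ℕ) : ℤ) - ((∏ i ∈ K.2, i : ℕ) : ℤ)) := by
      intro K hK
      rw [mem_filter, mem_dp] at hK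
      obtain ⟨⟨k1, k2, k3⟩, k4⟩ := hK
      rw [mem_filter, mem_dp]
      refine ⟨⟨?_, ?_, k3⟩, ?_⟩
      · intro x hx
        rw [mem_sdiff]
        exact ⟨k1 hx, fun h => (mem_jj.1 (k4 h)).2.1 hx⟩
      · intro x hx
        rw [mem_sdiff]
        exact ⟨k2 hx, fun h => (mem_jj.1 (k4 h)).2.2.1 hx⟩
      · rw [Nat.cast_prod (R := ℤ) _ J]
        refine Finset.prod_dvd_of_coprime ?_ ?_
        · intro i hi j hj hij
          exact Nat.isCoprime_iff_coprime.2 (hR (hJR hi) (hJR hj) hij)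
        · intro i hi
          exact (mem_jj.1 (k4 hi)).2.2.2
    have hcnt := count (R \ J) (fun i hi => h2 i (mem_sdiff.1 hi).1)
      (fun i hi j hj hij => hR (mem_sdiff.1 (mem_coe.1 hi)).1 (mem_sdiff.1 (mem_coe.1 hj)).1 hij)
      (∏ i ∈ J, i) (by
        intro i hi
        refine Nat.Coprime.prod_right fun j hj => hR (mem_sdiff.1 hi).1 (hJR hj) ?_
        rintro rfl
        exact (mem_sdiff.1 hi).2 hj) S' hS' hm1
    have hcard := (card_le_card hsub).trans hcnt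
    have hSJ := card_le_card hS'
    rw [card_sdiff_of_subset hJR] at hcard hSJ
    have hJc := card_le_card hJR
    calc ((dp R).filter fun K => J ⊆ jj R K).card * 3 ^ J.card
        ≤ (3 * (2 * (R.card - J.card) + 1) * 3 ^ (R.card - J.card - S'.card)) * 3 ^ J.card :=
          Nat.mul_le_mul_right _ hcard
      _ = 3 * (2 * (R.card - J.card) + 1) * 3 ^ (R.card - J.card - S'.card + J.card) := by
          rw [pow_add]; ring
      _ ≤ 3 * (2 * R.card + 1) * 3 ^ (symmDiff J T).card := by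
          refine Nat.mul_le_mul (by omega) (Nat.pow_le_pow_right (by norm_num) (by omega))
      _ ≤ _ := by
          refine Nat.mul_le_mul_left _ ?_
          exact single_le_sum (f := fun T => 3 ^ (symmDiff J T).card) (fun _ _ => Nat.zero_le _)
            (mem_ups.2 hT)
  refine (sum_le_sum s2).trans ?_
  rw [← mul_sum, sum_comm]
  have s3 : ∑ T ∈ ups R, ∑ J ∈ R.powerset, 3 ^ (symmDiff J T).card = (ups R).card * 4 ^ R.card := by
    rw [sum_congr rfl fun T hT => sum_symm R T (mem_ups.1 hT).1, sum_const, smul_eq_mul]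
  rw [s3, mul_assoc (3 * (2 * R.card + 1))]
  exact Nat.mul_le_mul_left _ (Nat.mul_le_mul_right _ (card_ups R))

end Pool.Agent.Helper96.Rat
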