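import Mathlib

/-!
# Matching a set with its complement

For a finite set `R` of natural numbers and `J ⊆ R` there are `S ⊆ R \ J` and an upper set `T` of `R`
such that the product of `S` is at most the product of `J` and `|R| ≤ |S| + |J ∆ T|`.
-/

set_option autoImplicit false

namespace Pool.Agent.Helper96.Rat

open Finset

/-- `T` is an upper set of `R` -/
def IsUp (R T : Finset ℕ) : Prop := T ⊆ R ∧ ∀ x ∈ T, ∀ y ∈ R, x ≤ y → y ∈ T

open Classical in
/-- the upper sets -/
noncomputable def ups (R : Finset ℕ) : Finset (Finset ℕ) := R.powerset.filter (IsUp R)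

lemma mem_ups {R T : Finset ℕ} : T ∈ ups R ↔ IsUp R T := by
  classical
  unfold ups
  rw [mem_filter, mem_powerset]
  exact ⟨fun h => h.2, fun h => ⟨h.1, h⟩⟩

lemma up_total {R T T' : Finset ℕ} (hT : IsUp R T) (hT' : IsUp R T') : T ⊆ T' ∨ T' ⊆ T := by
  by_contra hc
  push Not at hc
  obtain ⟨h1, h2⟩ := hc
  rw [not_subset] at h1 h2
  obtain ⟨x, hx, hx'⟩ := h1
  obtain ⟨y, hy, hy'⟩ := h2
  rcases le_total x y with h | h
  · exact hy' (hT.2 x hx y (hT'.1 hy) h)
  · exact hx' (hT'.2 y hy x (hT.1 hx) h)

lemma card_ups (R : Finset ℕ) : (ups R).card ≤ R.card + 1 := by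
  have h1 : (ups R).card ≤ (range (R.card + 1)).card := by
    refine card_le_card_of_injOn (fun T => T.card) ?_ ?_
    · intro T hT
      have hT' := mem_ups.1 (mem_coe.1 hT)
      have := card_le_card hT'.1
      rw [mem_coe, mem_range]
      beta_reduce
      omega
    · intro T hT T' hT' h
      have a1 := mem_ups.1 (mem_coe.1 hT)
      have a2 := mem_ups.1 (mem_coe.1 hT')
      have h' : T.card = T'.card := h
      rcases up_total a1 a2 with h3 | h3
      · exact eq_of_subset_of_card_le h3 h'.ge
      · exact (eq_of_subset_of_card_le h3 h'.le).symm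
  rwa [card_range] at h1

/-- **Matching.** -/
lemma matching (R : Finset ℕ) : ∀ J ⊆ R, ∃ S ⊆ R \ J, ∃ T, IsUp R T ∧ S.card ≤ J.card ∧
    (∀ m : ℕ, (∀ x ∈ R, m ≤ x) → (∏ i ∈ S, i) * m ^ (J.card - S.card) ≤ ∏ i ∈ J, i) ∧
    R.card ≤ S.card + (symmDiff J T).card := by
  induction R using Finset.induction_on_min with
  | empty =>
    intro J hJ
    rw [subset_empty] at hJ
    subst hJ
    refine ⟨∅, by simp, ∅, ⟨by simp, by simp⟩, le_rfl, ?_, by simp⟩
    intro m _
    simp
  | insert a s ha ih =>
    have has : a ∉ s := fun h => lt_irrefl _ (ha a h)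
    intro J hJ
    by_cases haJ : a ∈ J
    · obtain ⟨S, hS, T, hT, hc, hm, hk⟩ := ih (J.erase a) (by
        intro x hx
        rw [mem_erase] at hx
        exact (mem_insert.1 (hJ hx.2)).resolve_left hx.1)
      have haT : a ∉ T := fun h => has (hT.1 h)
      have hcJ : J.card = (J.erase a).card + 1 := by
        rw [card_erase_of_mem haJ]
        have := card_pos.2 ⟨a, haJ⟩
        omega
      refine ⟨S, ?_, T, ⟨hT.1.trans (subset_insert _ _), ?_⟩, by omega, ?_, ?_⟩
      · intro x hx
        have h1 := hS hx
        rw [mem_sdiff, mem_erase] at h1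
        rw [mem_sdiff]
        refine ⟨mem_insert_of_mem h1.1, fun h => h1.2 ⟨?_, h⟩⟩
        rintro rfl
        exact has h1.1
      · intro x hx y hy hxy
        rcases mem_insert.1 hy with rfl | hy
        · exact absurd (ha x (hT.1 hx)) (by omega)
        · exact hT.2 x hx y hy hxy
      · intro m hm'
        have h1 := hm m fun x hx => hm' x (mem_insert_of_mem hx)
        have h2 : m ≤ a := hm' a (mem_insert_self _ _)
        rw [← mul_prod_erase J (fun i => i) haJ]
        have e1 : J.card - S.card = ((J.erase a).card - S.card) + 1 := by omega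
        rw [e1, pow_succ, ← mul_assoc, mul_comm]
        exact Nat.mul_le_mul h2 h1
      · have h3 : symmDiff J T = insert a (symmDiff (J.erase a) T) := by
          ext x
          rw [mem_insert, mem_symmDiff, mem_symmDiff, mem_erase]
          by_cases hx : x = a
          · subst hx
            simp [haJ, haT]
          · simp [hx]
        rw [h3, card_insert_of_notMem has, card_insert_of_notMem]
        · omega
        · rw [mem_symmDiff, mem_erase]
          simp [haT]
    · have hJs : J ⊆ s := by
        intro x hx
        exact (mem_insert.1 (hJ hx)).resolve_left fun h => haJ (h ▸ hx)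
      obtain ⟨S, hS, T, hT, hc, hm, hk⟩ := ih J hJs
      have haS : a ∉ S := fun h => has (mem_sdiff.1 (hS h)).1
      by_cases hlt : S.card < J.card
      · refine ⟨insert a S, ?_, T, ⟨hT.1.trans (subset_insert _ _), ?_⟩, ?_, ?_, ?_⟩
        · intro x hx
          rw [mem_sdiff]
          rcases mem_insert.1 hx with rfl | hx
          · exact ⟨mem_insert_self _ _, haJ⟩
          · have := mem_sdiff.1 (hS hx)
            exact ⟨mem_insert_of_mem this.1, this.2⟩
        · intro x hx y hy hxy
          rcases mem_insert.1 hy with rfl | hy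
          · exact absurd (ha x (hT.1 hx)) (by omega)
          · exact hT.2 x hx y hy hxy
        · rw [card_insert_of_notMem haS]
          omega
        · intro m hm'
          have h1 := hm a fun x hx => (ha x hx).le
          have h2 : m ≤ a := hm' a (mem_insert_self _ _)
          rw [card_insert_of_notMem haS, prod_insert haS]
          refine le_trans ?_ h1
          have e1 : J.card - S.card = (J.card - (S.card + 1)) + 1 := by omega
          rw [e1, pow_succ, mul_comm a, mul_assoc, mul_comm a]
          exact Nat.mul_le_mul_left _ (Nat.mul_le_mul_right _ (Nat.pow_le_pow_left h2 _))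
        · rw [card_insert_of_notMem haS, card_insert_of_notMem has]
          omega
      · have hEq : S.card = J.card := by omega
        refine ⟨S, ?_, insert a s, ⟨Subset.refl _, fun _ _ y hy _ => hy⟩, hc, ?_, ?_⟩
        · intro x hx
          have := mem_sdiff.1 (hS hx)
          rw [mem_sdiff]
          exact ⟨mem_insert_of_mem this.1, this.2⟩
        · intro m _
          have h1 := hm 0 fun x _ => Nat.zero_le x
          rw [hEq, Nat.sub_self, pow_zero] at h1 ⊢
          exact h1
        · have h3 : symmDiff J (insert a s) = insert a s \ J := by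
            ext x
            rw [mem_symmDiff, mem_sdiff]
            constructor
            · rintro (h | h)
              · exact absurd (hJ h.1) h.2
              · exact h
            · intro h
              exact Or.inr h
          rw [h3, hEq, card_sdiff_of_subset hJ]
          have := card_le_card hJ
          omega

/-- the sum over all subsets of `3 ^ |J ∆ T|` -/
lemma sum_symm (R T : Finset ℕ) (hT : T ⊆ R) :
    ∑ J ∈ R.powerset, 3 ^ (symmDiff J T).card = 4 ^ R.card := by
  have h1 : ∑ J ∈ R.powerset, 3 ^ (symmDiff J T).card = ∑ J ∈ R.powerset, 3 ^ J.card := by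
    refine sum_nbij' (fun J => symmDiff J T) (fun J => symmDiff J T) ?_ ?_ ?_ ?_ ?_
    · intro J hJ
      rw [mem_powerset] at hJ ⊢
      exact symmDiff_le_sup.trans (sup_le hJ hT)
    · intro J hJ
      rw [mem_powerset] at hJ ⊢
      exact symmDiff_le_sup.trans (sup_le hJ hT)
    · intro J _
      exact symmDiff_symmDiff_cancel_right _ _
    · intro J _
      exact symmDiff_symmDiff_cancel_right _ _
    · intro J _
      rfl
  rw [h1]
  have h2 := Finset.sum_pow_mul_eq_add_pow (3 : ℕ) 1 R
  simpa using h2

end Pool.Agent.Helper96.Rat
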